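import Pool.Graph.R_seed8.H557R2.Tri.Search

/-!
# Approximations of real algebraic numbers in polynomial time (precision in unary)
-/

set_option autoImplicit false

namespace Pool.Agent.KS6_6.MD

open Pool.Agent.NPC Pool.Agent.NPC.H632 Pool.Agent.H557R2.Tri Polynomial Filter Topology

/-- homogeneous evaluation of a polynomial given by its list of coefficients -/
def hev : List ℤ → ℤ → ℤ → ℤ
  | [], _, _ => 0
  | c :: cs, j, M => c * M ^ cs.length + j * hev cs j M

/-- evaluation of a polynomial given by its list of coefficients -/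
def lev : List ℤ → ℝ → ℝ
  | [], _ => 0
  | c :: cs, x => c + x * lev cs x

theorem hev_eq (cs : List ℤ) (j M : ℤ) (hM : M ≠ 0) :
    (hev cs j M : ℝ) * M = (M : ℝ) ^ cs.length * lev cs (j / M) := by
  induction cs with
  | nil => simp [hev, lev]
  | cons c cs ih =>
    have hM' : (M : ℝ) ≠ 0 := by exact_mod_cast hM
    unfold hev lev
    push_cast
    rw [List.length_cons, pow_succ]
    have e1 : ((c : ℝ) * M ^ cs.length + j * hev cs j M) * M =
      c * M ^ cs.length * M + j * (hev cs j M * M) := by ring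
    rw [e1, ih]
    field_simp

theorem lev_poly (f : ℤ[X]) : ∃ cs : List ℤ, ∀ x : ℝ, lev cs x = aeval x f := by
  have key : ∀ (n : ℕ) (f : ℤ[X]), f.natDegree < n → ∃ cs : List ℤ, ∀ x : ℝ, lev cs x = aeval x f := by
    intro n
    induction n with
    | zero => intro f hf; omega
    | succ n ih =>
      intro f hf
      by_cases h0 : f.natDegree = 0
      · rw [Polynomial.natDegree_eq_zero] at h0
        obtain ⟨c, rfl⟩ := h0
        refine ⟨[c], fun x => ?_⟩
        simp [lev]
      · have h1 : f.divX.natDegree < n := by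
          rw [Polynomial.natDegree_divX_eq_natDegree_tsub_one]; omega
        obtain ⟨cs, hcs⟩ := ih _ h1
        refine ⟨f.coeff 0 :: cs, fun x => ?_⟩
        unfold lev
        rw [hcs]
        conv_rhs => rw [← Polynomial.divX_mul_X_add f]
        simp
        ring
  exact key (f.natDegree + 1) f (by omega)

section
variable {α : Type} [TEnc α]

theorem poly_hev (cs : List ℤ) {j M : α → ℤ} (hj : Poly j) (hM : Poly M) :
    Poly (fun a => hev cs (j a) (M a)) := by
  induction cs with
  | nil => exact NPC.Poly.const _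
  | cons c cs ih =>
    unfold hev
    exact Poly.iadd (Poly.imul (NPC.Poly.const _) (Poly.ipow hM (UPoly.const _))) (Poly.imul hj ih)

end

/-- an integer polynomial of minimal degree: the derivative does not vanish -/
theorem exists_simple {α : ℝ} (h : IsAlgebraic ℤ α) :
    ∃ f : ℤ[X], aeval α f = 0 ∧ 0 < aeval α (derivative f) := by
  classical
  have hex : ∃ n, ∃ f : ℤ[X], f ≠ 0 ∧ aeval α f = 0 ∧ f.natDegree = n := by
    obtain ⟨f, hf, hf0⟩ := h
    exact ⟨_, f, hf, hf0, rfl⟩
  obtain ⟨f, hf, hf0, hfd⟩ := Nat.find_spec hex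
  have hdeg : f.natDegree ≠ 0 := by
    intro h0
    rw [Polynomial.natDegree_eq_zero] at h0
    obtain ⟨c, rfl⟩ := h0
    simp only [eq_intCast, map_intCast, Int.cast_eq_zero] at hf0
    exact hf (by rw [hf0]; simp)
  have hd0 : derivative f ≠ 0 := by
    intro h0
    exact hdeg (Polynomial.natDegree_eq_zero_of_derivative_eq_zero h0)
  have hne : aeval α (derivative f) ≠ 0 := by
    intro h0
    have h1 : (derivative f).natDegree < f.natDegree := Polynomial.natDegree_derivative_lt hdeg
    have h2 := Nat.find_min hex (m := (derivative f).natDegree) (by rw [← hfd]; exact h1)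
    exact h2 ⟨_, hd0, h0, rfl⟩
  rcases lt_or_gt_of_ne hne with h1 | h1
  · refine ⟨-f, by simp [hf0], ?_⟩
    rw [derivative_neg, map_neg]
    linarith
  · exact ⟨f, hf0, h1⟩

/-- sign of the polynomial near the root -/
theorem exists_sign {α : ℝ} (h : IsAlgebraic ℤ α) :
    ∃ (cs : List ℤ) (ε : ℝ), 0 < ε ∧ ∀ x : ℝ, |x - α| < ε → (lev cs x < 0 ↔ x < α) := by
  obtain ⟨f, hf0, hf1⟩ := exists_simple h
  obtain ⟨cs, hcs⟩ := lev_poly f
  have hd : HasDerivAt (fun x : ℝ => aeval x f) (aeval α (derivative f)) α := by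
    have := Polynomial.hasDerivAt_aeval f α
    exact this
  rw [hasDerivAt_iff_tendsto_slope] at hd
  have h1 := hd.eventually (lt_mem_nhds hf1)
  rw [eventually_nhdsWithin_iff, Metric.eventually_nhds_iff] at h1
  obtain ⟨ε, hε, h2⟩ := h1
  refine ⟨cs, ε, hε, fun x hx => ?_⟩
  rw [hcs]
  rcases eq_or_ne x α with hxa | hxa
  · rw [hxa, hf0]; simp
  · have h3 := h2 (by rw [Real.dist_eq]; exact hx) hxa
    rw [slope_def_field, hf0, sub_zero] at h3
    constructor
    · intro h4
      by_contra h5
      have h6 : 0 < x - α := by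
        rcases lt_or_gt_of_ne hxa with h7 | h7
        · exact absurd h7 h5
        · linarith
      have := (div_pos_iff_of_pos_right h6).1 h3
      linarith
    · intro h4
      have h6 : x - α < 0 := by linarith
      by_contra h5
      rw [not_lt] at h5
      have := div_nonpos_of_nonneg_of_nonpos h5 h6.le
      linarith

/-- the test `j / M < α` -/
def tst (cs : List ℤ) (c D : ℕ) (j M : ℕ) : Bool :=
  decide (j * D < c * M) || (decide (j * D < (c + 2) * M) && decide (hev cs j M < 0))

theorem tst_iff {α : ℝ} (h0 : 0 < α) (h : IsAlgebraic ℤ α) :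
    ∃ (cs : List ℤ) (c D : ℕ), ∀ j M : ℕ, 1 ≤ M → (tst cs c D j M = true ↔ (j : ℝ) < α * M) := by
  obtain ⟨cs, ε, hε, hcs⟩ := exists_sign h
  obtain ⟨D, hD⟩ := exists_nat_gt (2 / ε)
  have hD0 : (0 : ℝ) < D := lt_trans (by positivity) hD
  have hDε : 2 / (D : ℝ) < ε := by
    rw [div_lt_iff₀ hD0]
    rw [div_lt_iff₀ hε] at hD
    linarith
  refine ⟨cs, ⌊α * D⌋₊, D, fun j M hM => ?_⟩
  have hM0 : (0 : ℝ) < M := by exact_mod_cast hM
  set c := ⌊α * D⌋₊ with hc
  have c1 : (c : ℝ) ≤ α * D := Nat.floor_le (by positivity)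
  have c2 : α * D < c + 1 := Nat.lt_floor_add_one _
  have hx : ∀ x : ℝ, (c : ℝ) / D ≤ x → x < ((c : ℝ) + 2) / D → (lev cs x < 0 ↔ x < α) := by
    intro x h1 h2
    refine hcs x ?_
    rw [div_le_iff₀ hD0] at h1
    rw [lt_div_iff₀ hD0] at h2
    rw [div_lt_iff₀ hD0] at hDε
    rw [abs_lt]
    constructor
    · nlinarith
    · nlinarith
  have hsgn : (hev cs j M < 0) ↔ lev cs ((j : ℝ) / M) < 0 := by
    have h1 := hev_eq cs j M (by exact_mod_cast (by omega : M ≠ 0))
    push_cast at h1
    have h2 : (0 : ℝ) < (M : ℝ) ^ cs.length := by positivity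
    constructor
    · intro h3
      have h4 : (hev cs j M : ℝ) < 0 := by exact_mod_cast h3
      have h5 : (hev cs j M : ℝ) * M < 0 := mul_neg_of_neg_of_pos h4 hM0
      rw [h1] at h5
      by_contra h6
      rw [not_lt] at h6
      have := mul_nonneg h2.le h6
      linarith
    · intro h3
      have h5 : (M : ℝ) ^ cs.length * lev cs ((j : ℝ) / M) < 0 := mul_neg_of_pos_of_neg h2 h3
      rw [← h1] at h5
      by_contra h6
      rw [not_lt] at h6
      have h7 : (0 : ℝ) ≤ (hev cs j M : ℝ) := by exact_mod_cast h6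
      have := mul_nonneg h7 hM0.le
      linarith
  unfold tst
  rw [Bool.or_eq_true, Bool.and_eq_true, decide_eq_true_eq, decide_eq_true_eq, decide_eq_true_eq, hsgn]
  have hja : (j : ℝ) < α * M ↔ (j : ℝ) / M < α := by rw [div_lt_iff₀ hM0]
  rw [hja]
  have e1 : j * D < c * M ↔ (j : ℝ) / M < (c : ℝ) / D := by
    rw [div_lt_div_iff₀ hM0 hD0]
    exact_mod_cast Iff.rfl
  have e2 : j * D < (c + 2) * M ↔ (j : ℝ) / M < ((c : ℝ) + 2) / D := by
    rw [div_lt_div_iff₀ hM0 hD0]
    exact_mod_cast Iff.rfl
  rw [e1, e2]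
  have c3 : (c : ℝ) / D ≤ α := by rw [div_le_iff₀ hD0]; exact c1
  have c4 : α < ((c : ℝ) + 2) / D := by rw [lt_div_iff₀ hD0]; linarith
  constructor
  · rintro (h1 | ⟨h1, h2⟩)
    · exact h1.trans_le c3
    · rcases lt_or_ge ((j : ℝ) / M) ((c : ℝ) / D) with h3 | h3
      · exact h3.trans_le c3
      · exact (hx _ h3 h1).1 h2
  · intro h1
    rcases lt_or_ge ((j : ℝ) / M) ((c : ℝ) / D) with h3 | h3
    · exact Or.inl h3
    · exact Or.inr ⟨h1.trans c4, (hx _ h3 (h1.trans c4)).2 h1⟩

theorem filter_range_lt (n c : ℕ) : ((List.range n).filter fun j => decide (j < c)).length = min n c := by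
  induction n with
  | zero => simp
  | succ n ih =>
    rw [List.range_succ, List.filter_append, List.length_append, ih]
    by_cases h : n < c
    · simp [h]; omega
    · simp [h]; omega

/-- **Approximation of positive algebraic numbers.** -/
theorem alg_approx {α : ℝ} (h0 : 0 < α) (h : IsAlgebraic ℤ α) :
    ∃ g : List Unit → ℕ, Poly g ∧ ∀ l : List Unit, l ≠ [] → |(g l : ℝ) / l.length - α| ≤ 1 / l.length := by
  obtain ⟨cs, c, D, ht⟩ := tst_iff h0 h
  obtain ⟨B, hB⟩ := exists_nat_gt α
  refine ⟨fun l => ((List.range (B * l.length)).filter fun j => tst cs c D j l.length).length, ?_, ?_⟩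
  · have hr : Poly fun l : List Unit => List.range (B * l.length) :=
      (UPoly.mul (UPoly.const B) (UPoly.length Poly.id)).range
    refine Poly.length (Poly.filter hr ?_)
    unfold tst
    have h1 : Poly fun a : List Unit × ℕ => a.2 := Poly.snd Poly.id
    have h2 : Poly fun a : List Unit × ℕ => a.1.length := Poly.length (Poly.fst Poly.id)
    have h3 : Poly fun a : List Unit × ℕ => ((a.2 : ℕ) : ℤ) := Poly.natCast h1
    have h4 : Poly fun a : List Unit × ℕ => ((a.1.length : ℕ) : ℤ) := Poly.natCast h2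
    have h5 := poly_hev cs h3 h4
    exact Poly.or (Poly.decide_lt (by fun_prop) (by fun_prop))
      (Poly.and (Poly.decide_lt (by fun_prop) (by fun_prop)) (Poly.ilt h5 (NPC.Poly.const 0)))
  · intro l hl
    have hM : 1 ≤ l.length := List.length_pos_iff.2 hl
    have hM0 : (0 : ℝ) < l.length := by exact_mod_cast hM
    have e1 : ((List.range (B * l.length)).filter fun j => tst cs c D j l.length) =
        (List.range (B * l.length)).filter fun j => decide (j < ⌈α * l.length⌉₊) := by
      apply List.filter_congr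
      intro j _
      have h1 := ht j l.length hM
      rw [Bool.eq_iff_iff, h1, decide_eq_true_eq, Nat.lt_ceil]
    have h2 : ⌈α * l.length⌉₊ ≤ B * l.length := by
      rw [Nat.ceil_le]
      push_cast
      exact mul_le_mul_of_nonneg_right hB.le hM0.le
    simp only
    rw [e1, filter_range_lt, min_eq_right h2]
    have c1 : α * l.length ≤ (⌈α * l.length⌉₊ : ℝ) := Nat.le_ceil _
    have c2 : (⌈α * l.length⌉₊ : ℝ) < α * l.length + 1 := Nat.ceil_lt_add_one (by positivity)
    have e2 : (⌈α * l.length⌉₊ : ℝ) / l.length - α = (⌈α * l.length⌉₊ - α * l.length) / l.length := by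
      field_simp
    rw [e2, abs_of_nonneg (div_nonneg (by linarith) hM0.le)]
    exact div_le_div_of_nonneg_right (by linarith) hM0.le

/-- rational powers of positive algebraic numbers are algebraic -/
theorem alg_rpow {x : ℝ} (hx : 0 < x) (h : IsAlgebraic ℤ x) (r : ℚ) : IsAlgebraic ℤ (x ^ (r : ℝ)) := by
  have h1 : IsAlgebraic ℤ ((x ^ (r : ℝ)) ^ r.den) := by
    have e : (x ^ (r : ℝ)) ^ r.den = x ^ (r.num : ℤ) := by
      rw [← Real.rpow_natCast, ← Real.rpow_mul hx.le, ← Real.rpow_intCast]
      congr 1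
      have := Rat.mul_den_eq_num r
      exact_mod_cast this
    rw [e]
    rcases Int.eq_nat_or_neg r.num with ⟨n, hn | hn⟩
    · rw [hn, zpow_natCast]; exact h.pow n
    · rw [hn, zpow_neg, zpow_natCast]; exact (h.pow n).inv
  exact IsAlgebraic.of_pow r.den_pos h1

end Pool.Agent.KS6_6.MD
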