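import Pool.Agent.KS6_6.MD.Search

/-!
# Exact algorithms and approximation schemes
-/

set_option autoImplicit false

namespace Pool.Agent.KS6_6.MD

open Pool.Agent.NPC Pool.Agent.NPC.H632 Pool.Agent.H557R2.Tri

variable {p : ℝ} {s : ℕ}

theorem dp_nonneg (x y : List ℚ) : 0 ≤ dp p s x y := by
  unfold dp
  exact Real.rpow_nonneg (Finset.sum_nonneg fun i _ => Real.rpow_nonneg (abs_nonneg _) _) _

theorem perp_nonneg (t : List ℚ × List ℚ × List ℚ) : 0 ≤ perp p s t :=
  add_nonneg (add_nonneg (dp_nonneg _ _) (dp_nonneg _ _)) (dp_nonneg _ _)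

theorem valp_nonneg (π : List (List ℚ × List ℚ × List ℚ)) : 0 ≤ valp p s π := by
  unfold valp
  refine List.sum_nonneg fun x hx => ?_
  obtain ⟨t, -, rfl⟩ := List.mem_map.1 hx
  exact perp_nonneg t

theorem Near.mono {ε ε' : ℝ} (h : ε ≤ ε') {P : List (List ℚ)} {π : List (List ℚ × List ℚ × List ℚ)}
    (hn : Near p s ε P π) : Near p s ε' P π := by
  refine ⟨hn.1, fun π' hπ' => le_trans ?_ (hn.2 π' hπ')⟩
  exact mul_le_mul_of_nonneg_right (by linarith) (valp_nonneg _)

/-- There is a polynomial-time algorithm computing an optimal partition for every instance. -/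
def AlgOpt (p : ℝ) (s : ℕ) : Prop :=
  ∃ F : List Bool → List Bool, PolyTime F ∧ ∀ P : List (List ℚ), Valid s P →
    ∃ π, F (bits P) = bits π ∧ IsPart P π ∧ ∀ π', IsPart P π' → valp p s π' ≤ valp p s π

/-- There is a fully polynomial-time approximation scheme: an algorithm which, given an instance
and a number `r ≥ 1` in unary, computes in polynomial time a partition with at least `1 - 1 / r`
times the maximum value. -/
def FPTAS (p : ℝ) (s : ℕ) : Prop :=
  ∃ F : List Bool → List Bool, PolyTime F ∧ ∀ (P : List (List ℚ)) (r : ℕ), Valid s P → 1 ≤ r →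
    ∃ π, F (bits (P, List.replicate r ())) = bits π ∧ Near p s (1 / r) P π

theorem algNear_of_opt (h : AlgOpt p s) (k : ℕ) : AlgNear p s k := by
  obtain ⟨F, hF, h⟩ := h
  refine ⟨F, hF, fun P hP _ _ => ?_⟩
  obtain ⟨π, h1, h2, h3⟩ := h P hP
  refine ⟨π, h1, Near.mono (ε := 0) (by positivity) ⟨h2, fun π' hπ' => ?_⟩⟩
  rw [sub_zero, one_mul]
  exact h3 π' hπ'

theorem bits_listT (P : List (List ℚ)) : bits (P.map toT) = bits P := by
  unfold bits
  congr 1
  change T.ofList ((P.map toT).map toT) = T.ofList (P.map toT)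
  rw [List.map_map]
  rfl

theorem bits_pairT (P : List (List ℚ)) (l : List Unit) : bits (P.map toT, l) = bits (P, l) := by
  have h := bits_listT P
  have h2 : (toT (P.map (toT : List ℚ → T)) : T) = toT P := T.enc_injective h
  unfold bits
  rw [toT_pair, toT_pair, h2]

theorem algNear_of_fptas (h : FPTAS p s) (k : ℕ) : AlgNear p s k := by
  obtain ⟨F, hF, h⟩ := h
  have hF' := Pool.Agent.H622R2.poly_of_polyTime hF
  let G : List Bool → List Bool := fun x => (unbits (List T) x).elim []
    fun l => F (bits (l, List.replicate (l.length ^ k) ()))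
  have hG : Poly G := by
    refine Poly.optElim poly_unbits (NPC.Poly.const _) ?_
    have h1 : Poly fun a : List Bool × List T => a.2 := Poly.snd Poly.id
    have h2 : UPoly fun a : List Bool × List T => a.2.length ^ k := by
      have := UPoly.eval (UPoly.length h1) (Polynomial.X ^ k)
      simpa using this
    exact hF'.comp (Pool.Agent.H557R2.Mve.poly_bits (Poly.pair h1 h2))
  refine ⟨G, Pool.Agent.H622R2.polyTime_of_poly_list hG, fun P hP hne _ => ?_⟩
  have hr : 1 ≤ P.length ^ k := Nat.one_le_pow _ _ (List.length_pos_iff.2 hne)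
  obtain ⟨π, h1, h2⟩ := h P (P.length ^ k) hP hr
  refine ⟨π, ?_, by push_cast at h2; exact h2⟩
  rw [← h1]
  simp only [G]
  rw [← bits_listT, unbits_bits]
  simp only [Option.elim_some, List.length_map]
  rw [bits_pairT]

/-- **No exact algorithm and no fully polynomial-time approximation scheme, unless `P = NP`.** -/
theorem collapse_opt (hp : 1 < p) (n : ℕ) (h : AlgOpt p (n + 2) ∨ FPTAS p (n + 2)) :
    ∀ L, InNP L → InP L := by
  obtain ⟨k, hk⟩ := collapseQ hp n
  rcases h with h | h
  · exact hk k le_rfl (algNear_of_opt h k)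
  · exact hk k le_rfl (algNear_of_fptas h k)

end Pool.Agent.KS6_6.MD
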