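import Pool.Agent.KS6_6.MD.Cor
import Pool.Agent.KS6_6.MD.Alg

/-!
# The decision version for rational exponents
-/

set_option autoImplicit false

namespace Pool.Agent.KS6_6.MD

open Pool.Agent.NPC Pool.Agent.NPC.H632 Pool.Agent.H557R2.Tri

variable {p : ℝ} {S : List (ℕ × ℕ × ℕ)} {q : ℕ}

/-! ### the constants are algebraic -/

theorem alg_half : IsAlgebraic ℤ (1 / 2 : ℝ) := by
  have h : IsAlgebraic ℤ ((2 : ℤ) : ℝ) := isAlgebraic_int 2
  have := h.inv
  rw [one_div]
  exact_mod_cast this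

theorem alg_F {r : ℚ} : IsAlgebraic ℤ (F0 (r : ℝ)) ∧ IsAlgebraic ℤ (F1 (r : ℝ)) ∧ IsAlgebraic ℤ (F2 (r : ℝ)) := by
  have hb : IsAlgebraic ℤ (1 + (1 / 2 : ℝ) ^ (r : ℝ)) := by
    have h1 : IsAlgebraic ℤ ((1 : ℤ) : ℝ) := isAlgebraic_int 1
    have := h1.add (alg_rpow (by norm_num) alg_half r)
    exact_mod_cast this
  have hbp : (0 : ℝ) < 1 + (1 / 2 : ℝ) ^ (r : ℝ) := base_pos (by norm_num)
  have hq : ∀ t : ℚ, IsAlgebraic ℤ ((1 + (1 / 2 : ℝ) ^ (r : ℝ)) ^ (t : ℝ)) := fun t => alg_rpow hbp hb t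
  have hh : ∀ t : ℚ, IsAlgebraic ℤ ((1 / 2 : ℝ) ^ (t : ℝ)) := fun t => alg_rpow (by norm_num) alg_half t
  refine ⟨?_, ?_, ?_⟩
  · have := hq (1 / r)
    unfold F0 ph
    push_cast at this
    exact this
  · have := (hh (r - 1)).mul (hq (1 / r - 1))
    unfold F1 ph1
    push_cast at this
    exact this
  · have h1 : IsAlgebraic ℤ ((r - 1 : ℝ)) := by
      have : IsAlgebraic ℤ (((r - 1 : ℚ)) : ℝ) := by
        have h2 : IsAlgebraic ℚ (((r - 1 : ℚ)) : ℝ) := isAlgebraic_algebraMap (r - 1 : ℚ)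
        exact (IsFractionRing.isAlgebraic_iff ℤ ℚ ℝ).2 h2
      push_cast at this
      exact this
    have := h1.mul ((hh (r - 2)).mul (hq (1 / r - 2)))
    unfold F2 ph2
    push_cast at this
    exact this

/-! ### the threshold as a combination of the constants -/

/-- coefficient of `F0` in the separable part -/
def x0 (L : ℤ) (e : Elt) : ℤ :=
  if e.1 = 0 then 8 * L + 2 * e.2 else if e.1 = 1 then 8 * L + 10 * e.2 else 8 * L + 8 * e.2
/-- coefficient of `F1` in the separable part -/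
def x1 (e : Elt) : ℤ := if e.1 = 0 then -3 * e.2 else if e.1 = 1 then 5 * e.2 else -4 * e.2
/-- coefficient of `F2 / (60 L)` in the separable part -/
def x2 (e : Elt) : ℤ :=
  if e.1 = 0 then 50 * (e.2 * e.2) else if e.1 = 1 then 93 * (e.2 * e.2) else 510 * (e.2 * e.2)

theorem sepQ_eq {L : ℤ} (hL : 0 < L) (e : Elt) :
    sepQ p L e = F0 p * x0 L e + F1 p * x1 e + F2 p / (60 * L) * x2 e := by
  have hL0 : (L : ℝ) ≠ 0 := by positivity
  unfold sepQ x0 x1 x2
  split_ifs
  · push_cast; field_simp; ring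
  · push_cast; field_simp; ring
  · push_cast; field_simp; ring

theorem SS_eq {L : ℤ} (hL : 0 < L) (E : List Elt) :
    SS p L E = F0 p * ((E.map (x0 L)).sum : ℤ) + F1 p * ((E.map x1).sum : ℤ) +
      F2 p / (60 * L) * ((E.map x2).sum : ℤ) := by
  unfold SS
  induction E with
  | nil => simp
  | cons e E ih =>
    simp only [List.map_cons, List.sum_cons]
    rw [ih, sepQ_eq hL]
    push_cast
    ring

attribute [local fun_prop] Poly.iadd Poly.isub Poly.imul Poly.ineg

section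
variable {α : Type} [TEnc α]

theorem poly_x0 {L : α → ℤ} {e : α → Elt} (hL : Poly L) (he : Poly e) :
    Poly (fun a => x0 (L a) (e a)) := by
  unfold x0
  fun_prop

theorem poly_x1 {e : α → Elt} (he : Poly e) : Poly (fun a => x1 (e a)) := by
  unfold x1
  fun_prop

theorem poly_x2 {e : α → Elt} (he : Poly e) : Poly (fun a => x2 (e a)) := by
  unfold x2
  fun_prop

end

/-- the three coefficients -/
def Y0 (K J : ℤ) (S : List (ℕ × ℕ × ℕ)) (q : ℕ) : ℤ :=
  60 * LK K S.length q * J * ((EE S q).map (x0 (LK K S.length q))).sum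
def Y1 (K J : ℤ) (S : List (ℕ × ℕ × ℕ)) (q : ℕ) : ℤ :=
  60 * LK K S.length q * J * ((EE S q).map x1).sum
def Y2 (J : ℤ) (S : List (ℕ × ℕ × ℕ)) (q : ℕ) : ℤ :=
  J * (((EE S q).map x2).sum - 30 * (TH S.length + 1))

/-- the scale -/
def FJ (K J : ℤ) (m q : ℕ) : ℤ := 60 * LK K m q * J

theorem poly_Y (K J : ℤ) : (Poly fun I : Inst => Y0 K J I.1 I.2) ∧ (Poly fun I : Inst => Y1 K J I.1 I.2) ∧
    (Poly fun I : Inst => Y2 J I.1 I.2) ∧ Poly fun I : Inst => FJ K J I.1.length I.2 := by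
  have hL := poly_LKI K
  have hF : Poly fun I : Inst => 60 * LK K I.1.length I.2 * J :=
    Poly.imul (Poly.imul (NPC.Poly.const _) hL) (NPC.Poly.const _)
  refine ⟨?_, ?_, ?_, hF⟩
  · unfold Y0
    exact Poly.imul hF (Poly.isum (NPC.Poly.map poly_EE (poly_x0 (hL.comp (Poly.fst Poly.id))
      (Poly.snd Poly.id))))
  · unfold Y1
    exact Poly.imul hF (Poly.isum (NPC.Poly.map poly_EE (poly_x1 (Poly.snd Poly.id))))
  · unfold Y2
    have h2 : Poly fun I : Inst => TH I.1.length := by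
      unfold TH
      fun_prop
    exact Poly.imul (NPC.Poly.const _) (Poly.isub
      (Poly.isum (NPC.Poly.map poly_EE (poly_x2 (Poly.snd Poly.id))))
      (Poly.imul (NPC.Poly.const _) (Poly.iadd h2 (NPC.Poly.const _))))

theorem thr_comb {L : ℤ} (hL : 0 < L) (J : ℤ) (E : List Elt) (θ : ℝ) :
    (60 * L * J : ℝ) * (SS p L E - F2 p / (2 * L) * (θ + 1)) =
      F0 p * (60 * L * J * ((E.map (x0 L)).sum : ℤ)) + F1 p * (60 * L * J * ((E.map x1).sum : ℤ)) +
      F2 p * (J * (((E.map x2).sum : ℤ) - 30 * (θ + 1))) := by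
  have hL0 : (0 : ℝ) < L := by exact_mod_cast hL
  rw [SS_eq hL]
  field_simp
  ring

/-! ### sizes -/

theorem sum_abs_le {E : List Elt} {x : Elt → ℤ} {B : ℤ} (h : ∀ e ∈ E, |x e| ≤ B) :
    |(E.map x).sum| ≤ E.length * B := by
  induction E with
  | nil => simp
  | cons e E ih =>
    have h1 := ih fun e he => h e (List.mem_cons_of_mem _ he)
    have h2 := h e (List.mem_cons_self ..)
    simp only [List.map_cons, List.sum_cons, List.length_cons]
    push_cast
    calc |x e + (E.map x).sum| ≤ |x e| + |(E.map x).sum| := abs_add_le _ _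
      _ ≤ B + E.length * B := add_le_add h2 h1
      _ = _ := by ring

/-- all coefficients are bounded by a polynomial -/
theorem Y_le (h : Pr S q) {K J : ℤ} (hK : 1 ≤ K) (hJ : 1 ≤ J) :
    |Y0 K J S q| + |Y1 K J S q| + |Y2 J S q| ≤ 10 ^ 40 * K ^ 2 * J * (S.length : ℤ) ^ 27 := by
  have hS : 1 ≤ S.length := List.length_pos_iff.2 h.ne
  have hS' : (1 : ℤ) ≤ S.length := by exact_mod_cast hS
  have hLpos := LK_pos hK S.length q
  have hH1 := (HH_ge S.length q).2
  have h1L := LK_le hK hS (q_le h)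
  have hL1 := LK_ge hK S.length q
  have hb := big (m := S.length) (q := q) (n := 0) (by omega)
  have hHL : 2000 * HH S.length q ≤ LL S.length q := by exact_mod_cast hb.hL
  have hTH : TH S.length + 1 ≤ LL S.length q := hb.hθ
  have hT0 : 0 ≤ TH S.length := by unfold TH; positivity
  set L := LK K S.length q with hLd
  set H := HH S.length q with hHd
  have hHL' : 2000 * H ≤ L := hHL.trans hL1
  have hL0 : 0 < L := by linarith
  have hlen : ((EE S q).length : ℤ) = 9 * S.length := by rw [EE_length]; push_cast; ring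
  have b0 : |((EE S q).map (x0 L)).sum| ≤ 9 * S.length * (9 * L) := by
    rw [← hlen]
    refine sum_abs_le fun e he => ?_
    have ha := abs_le.1 (h.abs_le he)
    rw [← hHd] at ha
    unfold x0
    split_ifs <;> rw [abs_le] <;> constructor <;> linarith
  have b1 : |((EE S q).map x1).sum| ≤ 9 * S.length * (9 * L) := by
    rw [← hlen]
    refine sum_abs_le fun e he => ?_
    have ha := abs_le.1 (h.abs_le he)
    rw [← hHd] at ha
    unfold x1
    split_ifs <;> rw [abs_le] <;> constructor <;> linarith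
  have b2 : |((EE S q).map x2).sum| ≤ 9 * S.length * (9 * L * L) := by
    rw [← hlen]
    refine sum_abs_le fun e he => ?_
    have ha := h.abs_le he
    rw [← hHd] at ha
    have h2 : e.2 * e.2 ≤ H * H := by
      have := mul_self_le_mul_self (abs_nonneg e.2) ha
      rwa [abs_mul_abs_self] at this
    have h20 : 0 ≤ e.2 * e.2 := mul_self_nonneg _
    have h3 : 510 * (H * H) ≤ 9 * L * L := by nlinarith
    unfold x2
    split_ifs <;> rw [abs_of_nonneg (by positivity)] <;> linarith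
  have hF0 : 0 ≤ 60 * L * J := by positivity
  have c0 : |Y0 K J S q| ≤ 60 * L * J * (9 * S.length * (9 * L)) := by
    unfold Y0
    rw [abs_mul, ← hLd, abs_of_nonneg hF0]
    exact mul_le_mul_of_nonneg_left b0 hF0
  have c1 : |Y1 K J S q| ≤ 60 * L * J * (9 * S.length * (9 * L)) := by
    unfold Y1
    rw [abs_mul, ← hLd, abs_of_nonneg hF0]
    exact mul_le_mul_of_nonneg_left b1 hF0
  have c2 : |Y2 J S q| ≤ J * (9 * S.length * (9 * L * L) + 30 * L) := by
    unfold Y2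
    rw [abs_mul, abs_of_pos (by linarith : 0 < J)]
    refine mul_le_mul_of_nonneg_left ?_ (by linarith)
    refine (abs_sub _ _).trans ?_
    rw [abs_of_nonneg (by linarith : 0 ≤ 30 * (TH S.length + 1))]
    linarith
  have hL2 : L * L ≤ K ^ 2 * 10 ^ 36 * (S.length : ℤ) ^ 26 := by
    have := mul_le_mul h1L h1L hL0.le (by positivity)
    calc L * L ≤ K * 10 ^ 18 * (S.length : ℤ) ^ 13 * (K * 10 ^ 18 * (S.length : ℤ) ^ 13) := this
      _ = _ := by ring
  have hLL : L ≤ L * L := by nlinarith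
  have hmL : 0 ≤ (S.length : ℤ) * (L * L) := by positivity
  have d1 : L * L ≤ S.length * (L * L) := le_mul_of_one_le_left (by positivity) hS'
  calc |Y0 K J S q| + |Y1 K J S q| + |Y2 J S q|
      ≤ 60 * L * J * (9 * S.length * (9 * L)) + 60 * L * J * (9 * S.length * (9 * L)) +
        J * (9 * S.length * (9 * L * L) + 30 * L) := add_le_add (add_le_add c0 c1) c2
    _ = J * (9801 * (S.length * (L * L)) + 30 * L) := by ring
    _ ≤ J * (10000 * (S.length * (L * L))) := by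
        refine mul_le_mul_of_nonneg_left ?_ (by linarith)
        linarith
    _ ≤ J * (10000 * (S.length * (K ^ 2 * 10 ^ 36 * (S.length : ℤ) ^ 26))) := by
        refine mul_le_mul_of_nonneg_left ?_ (by linarith)
        refine mul_le_mul_of_nonneg_left ?_ (by norm_num)
        exact mul_le_mul_of_nonneg_left hL2 (by positivity)
    _ = 10 ^ 40 * K ^ 2 * J * (S.length : ℤ) ^ 27 := by ring

/-! ### the bound -/

/-- The decision problem: points and a bound. -/
def MaxP (p : ℝ) (s : ℕ) (I : List (List ℚ) × ℚ) : Prop :=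
  Valid s I.1 ∧ ∃ π, IsPart I.1 π ∧ (I.2 : ℝ) ≤ valp p s π

/-- The decision problem restricted to the instances of `N` points whose coordinates are natural
numbers `≤ N ^ k` and whose bound is an integer of absolute value `≤ N ^ k`. -/
def MaxPk (p : ℝ) (s k : ℕ) (I : List (List ℚ) × ℚ) : Prop :=
  SmallC k I.1 ∧ (∃ w : ℤ, I.2 = (w : ℚ) ∧ |w| ≤ (I.1.length : ℤ) ^ k) ∧ MaxP p s I

theorem dec_iff {C : ℝ} {K J : ℤ} (k : KOk p C K) (hJ : 1 ≤ J) (hJ2 : 1 ≤ F2 p * J) (h : Pr S q) (n : ℕ)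
    {V : ℤ} (hV : |(V : ℝ) - (F0 p * Y0 K J S q + F1 p * Y1 K J S q + F2 p * Y2 J S q)| ≤ 2) :
    X3C (S, q) ↔ MaxP p (n + 2) (PQ n (FJ K J S.length q) K S q, ((V : ℤ) : ℚ)) := by
  have hL0' : 0 < LK K S.length q := by
    have h1 := LK_pos k.k1 S.length q
    have h2 := (HH_ge S.length q).2
    linarith
  have hL0 : (0 : ℝ) < LK K S.length q := by exact_mod_cast hL0'
  have hF : 0 < FJ K J S.length q := by
    unfold FJ
    have : 0 < J := by linarith
    positivity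
  have hFr : (0 : ℝ) < FJ K J S.length q := by exact_mod_cast hF
  have hF2 := F2_pos k.hp
  have hcomb := thr_comb (p := p) hL0' J (EE S q) ((TH S.length : ℤ) : ℝ)
  have e1 : F0 p * Y0 K J S q + F1 p * Y1 K J S q + F2 p * Y2 J S q =
      (FJ K J S.length q : ℝ) * (SS p (LK K S.length q) (EE S q) -
        F2 p / (2 * LK K S.length q) * ((TH S.length : ℤ) + 1)) := by
    unfold FJ Y0 Y1 Y2
    push_cast
    push_cast at hcomb
    rw [hcomb]
  rw [e1] at hV
  have hV' := abs_le.1 hV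
  -- the gap
  have hgap : (2 : ℝ) ≤ (FJ K J S.length q : ℝ) * (F2 p / (2 * LK K S.length q) * (1 / 2)) := by
    have e2 : (FJ K J S.length q : ℝ) * (F2 p / (2 * LK K S.length q) * (1 / 2)) = 15 * (F2 p * J) := by
      unfold FJ
      push_cast
      field_simp
      ring
    rw [e2]; linarith
  rw [h.x3c_iff]
  unfold MaxP
  simp only
  constructor
  · rintro ⟨π, hπ⟩
    refine ⟨pq_valid h n hF k.k1, _, (pq_part h n hF k.k1).2 ⟨π, rfl, hπ.1⟩, ?_⟩
    rw [valp_cq k.hp n hF.le]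
    have h1 := mul_le_mul_of_nonneg_left (of_zp k h hπ) hFr.le
    push_cast
    refine le_trans ?_ h1
    have e3 : (FJ K J S.length q : ℝ) * (SS p (LK K S.length q) (EE S q) -
        F2 p / (2 * LK K S.length q) * ((TH S.length : ℤ) + 1 / 2)) =
      (FJ K J S.length q : ℝ) * (SS p (LK K S.length q) (EE S q) -
        F2 p / (2 * LK K S.length q) * ((TH S.length : ℤ) + 1)) +
      (FJ K J S.length q : ℝ) * (F2 p / (2 * LK K S.length q) * (1 / 2)) := by ring
    rw [e3]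
    linarith
  · rintro ⟨-, π', h1, h2⟩
    obtain ⟨π, rfl, h3⟩ := (pq_part h n hF k.k1).1 h1
    refine ⟨π, zp_of k h h3 ?_⟩
    rw [valp_cq k.hp n hF.le] at h2
    push_cast at h2
    have e3 : (FJ K J S.length q : ℝ) * (SS p (LK K S.length q) (EE S q) -
        F2 p / (2 * LK K S.length q) * ((TH S.length : ℤ) + 3 / 2)) =
      (FJ K J S.length q : ℝ) * (SS p (LK K S.length q) (EE S q) -
        F2 p / (2 * LK K S.length q) * ((TH S.length : ℤ) + 1)) -
      (FJ K J S.length q : ℝ) * (F2 p / (2 * LK K S.length q) * (1 / 2)) := by ring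
    have h4 : (FJ K J S.length q : ℝ) * (SS p (LK K S.length q) (EE S q) -
        F2 p / (2 * LK K S.length q) * ((TH S.length : ℤ) + 3 / 2)) ≤
        (FJ K J S.length q : ℝ) * valQ p (LK K S.length q) π := by
      rw [e3]
      linarith
    exact le_of_mul_le_mul_left h4 hFr

/-- **The decision version is NP-hard** (many-one reductions), for every rational `p > 1`, even for
points with natural coordinates which are polynomially bounded in the number of points. -/
theorem decision {r : ℚ} (hr : 1 < (r : ℝ)) (n : ℕ) : ∃ k : ℕ, NPHardP (MaxPk (r : ℝ) (n + 2) k) ∧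
    NPHardP (MaxP (r : ℝ) (n + 2)) := by
  obtain ⟨C, K, hK⟩ := exists_KOk hr
  have hF2 := F2_pos hr
  obtain ⟨J, hJ0⟩ := exists_nat_ge (1 + 1 / F2 (r : ℝ))
  have hJ1 : (1 : ℝ) ≤ J := by
    have : 0 < 1 / F2 (r : ℝ) := by positivity
    linarith
  have hJ : (1 : ℤ) ≤ (J : ℤ) := by exact_mod_cast hJ1
  have hJ2 : 1 ≤ F2 (r : ℝ) * ((J : ℤ) : ℝ) := by
    have h1 : 1 / F2 (r : ℝ) ≤ J := by linarith
    rw [div_le_iff₀ hF2] at h1
    push_cast
    linarith
  obtain ⟨a0, a1, a2⟩ := alg_F (r := r)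
  obtain ⟨g0, pg0, hg0⟩ := alg_approx (by linarith [F0_ge hr]) a0
  obtain ⟨g1, pg1, hg1⟩ := alg_approx F1_pos a1
  obtain ⟨g2, pg2, hg2⟩ := alg_approx hF2 a2
  -- the precision
  obtain ⟨κ1, hκ1⟩ := exists_k (10 ^ 40 * (K : ℝ) ^ 2 * J) 27
  obtain ⟨κ2, hκ2⟩ := exists_k (10 ^ 40 * (K : ℝ) ^ 2 * J * (3 + F2 (r : ℝ)) + 2) 27
  obtain ⟨κ3, hκ3⟩ := exists_k (720 * 10 ^ 36 * (K : ℝ) ^ 2 * J) 26
  obtain ⟨κ, hκd⟩ : ∃ κ : ℕ, κ = max κ1 (max κ2 κ3) := ⟨_, rfl⟩
  have l1 : κ1 ≤ κ := by rw [hκd]; exact le_max_left _ _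
  have l2 : κ2 ≤ κ := by rw [hκd]; exact (le_max_left _ _).trans (le_max_right _ _)
  have l3 : κ3 ≤ κ := by rw [hκd]; exact (le_max_right _ _).trans (le_max_right _ _)
  let un : Inst → List Unit := fun I => List.replicate ((9 * I.1.length) ^ κ) ()
  have pun : Poly un := by
    have := UPoly.eval (UPoly.mul (UPoly.const 9) (UPoly.length (Poly.fst (Poly.id (α := Inst)))))
      (Polynomial.X ^ κ)
    have e : (fun a : Inst => Polynomial.eval (9 * a.1.length) (Polynomial.X ^ κ : Polynomial ℕ)) =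
        fun a => (9 * a.1.length) ^ κ := by
      funext a; simp
    unfold UPoly at this
    rw [show (fun a : Inst => List.replicate (Polynomial.eval (9 * a.1.length) (Polynomial.X ^ κ : Polynomial ℕ)) ()) = un from by
      funext a; simp [un]] at this
    exact this
  let V : Inst → ℤ := fun I => ((g0 (un I) : ℤ) * Y0 K J I.1 I.2 + (g1 (un I) : ℤ) * Y1 K J I.1 I.2 +
    (g2 (un I) : ℤ) * Y2 J I.1 I.2) / (((un I).length : ℕ) : ℤ)
  obtain ⟨py0, py1, py2, pF⟩ := poly_Y K J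
  have pV : Poly V := by
    refine Poly.idiv ?_ (Poly.length pun)
    exact Poly.iadd (Poly.iadd (Poly.imul (Poly.natCast (pg0.comp pun)) py0)
      (Poly.imul (Poly.natCast (pg1.comp pun)) py1)) (Poly.imul (Poly.natCast (pg2.comp pun)) py2)
  have hVok : ∀ I : Inst, Pr I.1 I.2 → |(V I : ℝ) - (F0 (r : ℝ) * Y0 K J I.1 I.2 +
      F1 (r : ℝ) * Y1 K J I.1 I.2 + F2 (r : ℝ) * Y2 J I.1 I.2)| ≤ 2 := by
    rintro ⟨S, q⟩ h
    simp only at h ⊢
    have hS : 1 ≤ S.length := List.length_pos_iff.2 h.ne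
    have hY := Y_le h hK.k1 hJ
    have hM : (un (S, q)).length = (9 * S.length) ^ κ := by simp [un]
    have hM1 : 1 ≤ (un (S, q)).length := by
      rw [hM]; exact Nat.one_le_pow _ _ (by omega)
    have hune : un (S, q) ≠ [] := List.length_pos_iff.1 hM1
    have b0 := hg0 _ hune
    have b1 := hg1 _ hune
    have b2 := hg2 _ hune
    have hYM : (|(Y0 K J S q : ℝ)| + |(Y1 K J S q : ℝ)| + |(Y2 J S q : ℝ)|) ≤ (un (S, q)).length := by
      have h1 := hκ1 κ l1 S.length hS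
      have h2 : (|(Y0 K J S q : ℝ)| + |(Y1 K J S q : ℝ)| + |(Y2 J S q : ℝ)|) ≤
          10 ^ 40 * (K : ℝ) ^ 2 * J * (S.length : ℝ) ^ 27 := by exact_mod_cast hY
      rw [hM]
      push_cast
      exact h2.trans h1
    set M := (un (S, q)).length with hMd
    have hM0 : (0 : ℝ) < M := by exact_mod_cast hM1
    set W : ℤ := (g0 (un (S, q)) : ℤ) * Y0 K J S q + (g1 (un (S, q)) : ℤ) * Y1 K J S q +
      (g2 (un (S, q)) : ℤ) * Y2 J S q with hW
    have hVW : |((V (S, q) : ℤ) : ℝ) - (W : ℝ) / M| ≤ 1 := by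
      have e : V (S, q) = W / (M : ℤ) := rfl
      have h1 : (W / (M : ℤ)) * M ≤ W := Int.ediv_mul_le W (by exact_mod_cast hM0.ne')
      have h2 : W < (W / (M : ℤ) + 1) * M := Int.lt_ediv_add_one_mul_self W (by exact_mod_cast hM0)
      have h1' : ((W / (M : ℤ) : ℤ) : ℝ) * M ≤ W := by exact_mod_cast h1
      have h2' : (W : ℝ) < (((W / (M : ℤ) : ℤ) : ℝ) + 1) * M := by exact_mod_cast h2
      rw [e, abs_le]
      have h3 : ((W / (M : ℤ) : ℤ) : ℝ) ≤ (W : ℝ) / M := by rw [le_div_iff₀ hM0]; exact h1'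
      have h4 : (W : ℝ) / M < ((W / (M : ℤ) : ℤ) : ℝ) + 1 := by rw [div_lt_iff₀ hM0]; exact h2'
      constructor <;> linarith
    have hWF : |(W : ℝ) / M - (F0 (r : ℝ) * Y0 K J S q + F1 (r : ℝ) * Y1 K J S q +
        F2 (r : ℝ) * Y2 J S q)| ≤ 1 := by
      have e : (W : ℝ) / M - (F0 (r : ℝ) * Y0 K J S q + F1 (r : ℝ) * Y1 K J S q + F2 (r : ℝ) * Y2 J S q) =
          ((g0 (un (S, q)) : ℝ) / M - F0 (r : ℝ)) * Y0 K J S q +
          ((g1 (un (S, q)) : ℝ) / M - F1 (r : ℝ)) * Y1 K J S q +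
          ((g2 (un (S, q)) : ℝ) / M - F2 (r : ℝ)) * Y2 J S q := by
        rw [hW]; push_cast; ring
      rw [e]
      refine (abs_add_three _ _ _).trans ?_
      rw [abs_mul, abs_mul, abs_mul]
      calc _ ≤ 1 / (M : ℝ) * |(Y0 K J S q : ℝ)| + 1 / (M : ℝ) * |(Y1 K J S q : ℝ)| +
            1 / (M : ℝ) * |(Y2 J S q : ℝ)| :=
            add_le_add (add_le_add (mul_le_mul_of_nonneg_right b0 (abs_nonneg _))
              (mul_le_mul_of_nonneg_right b1 (abs_nonneg _))) (mul_le_mul_of_nonneg_right b2 (abs_nonneg _))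
        _ = (|(Y0 K J S q : ℝ)| + |(Y1 K J S q : ℝ)| + |(Y2 J S q : ℝ)|) / M := by ring
        _ ≤ 1 := by rw [div_le_one hM0]; exact hYM
    have := abs_sub_le ((V (S, q) : ℤ) : ℝ) ((W : ℝ) / M) (F0 (r : ℝ) * Y0 K J S q +
      F1 (r : ℝ) * Y1 K J S q + F2 (r : ℝ) * Y2 J S q)
    linarith
  have pf : Poly fun I : Inst => (PQ n (FJ K J I.1.length I.2) K I.1 I.2, ((V I : ℤ) : ℚ)) :=
    Poly.pair (poly_PQ n (F := fun I => FJ K J I.1.length I.2) pF K) (poly_rat pV)
  have hiff : ∀ I : Inst, Pr I.1 I.2 → (X3C I ↔ MaxP (r : ℝ) (n + 2)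
      (PQ n (FJ K J I.1.length I.2) K I.1 I.2, ((V I : ℤ) : ℚ))) := fun I hI =>
    dec_iff hK hJ hJ2 hI n (hVok I hI)
  have hsmall : ∀ I : Inst, Pr I.1 I.2 → SmallC κ (PQ n (FJ K J I.1.length I.2) K I.1 I.2) ∧
      ∃ w : ℤ, ((V I : ℤ) : ℚ) = (w : ℚ) ∧
        |w| ≤ ((PQ n (FJ K J I.1.length I.2) K I.1 I.2).length : ℤ) ^ κ := by
    rintro ⟨S, q⟩ h
    simp only at h ⊢
    have hS : 1 ≤ S.length := List.length_pos_iff.2 h.ne
    have hS' : (1 : ℤ) ≤ S.length := by exact_mod_cast hS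
    have hLpos := LK_pos hK.k1 S.length q
    have hH1 := (HH_ge S.length q).2
    have hL0 : 0 < LK (K : ℤ) S.length q := by linarith
    have hF : 0 < FJ (K : ℤ) J S.length q := by
      unfold FJ
      exact mul_pos (mul_pos (by norm_num) hL0) (by linarith)
    constructor
    · intro l hl c hc
      obtain ⟨m, hm, hm'⟩ := pq_coord h hF hK.k1 hl hc
      refine ⟨m, hm, ?_⟩
      rw [pq_length]
      have h1 := LK_le hK.k1 hS (q_le h)
      have hLL : LK (K : ℤ) S.length q * LK (K : ℤ) S.length q ≤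
          (K : ℤ) ^ 2 * 10 ^ 36 * (S.length : ℤ) ^ 26 := by
        have := mul_le_mul h1 h1 hL0.le (hL0.le.trans h1)
        calc _ ≤ _ := this
          _ = _ := by ring
      have h2 : (m : ℤ) ≤ 720 * 10 ^ 36 * (K : ℤ) ^ 2 * J * (S.length : ℤ) ^ 26 := by
        refine hm'.trans ?_
        unfold FJ
        calc 60 * LK (K : ℤ) S.length q * J * (12 * LK (K : ℤ) S.length q) =
            720 * J * (LK (K : ℤ) S.length q * LK (K : ℤ) S.length q) := by ring
          _ ≤ 720 * J * ((K : ℤ) ^ 2 * 10 ^ 36 * (S.length : ℤ) ^ 26) :=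
              mul_le_mul_of_nonneg_left hLL (by positivity)
          _ = _ := by ring
      have h3 : (m : ℝ) ≤ 720 * 10 ^ 36 * (K : ℝ) ^ 2 * J * (S.length : ℝ) ^ 26 := by exact_mod_cast h2
      have h4 := h3.trans (hκ3 κ l3 S.length hS)
      exact_mod_cast h4
    · refine ⟨V (S, q), rfl, ?_⟩
      rw [pq_length]
      have h1 := hVok (S, q) h
      have hY := Y_le h hK.k1 hJ
      have h2 : (|(Y0 K J S q : ℝ)| + |(Y1 K J S q : ℝ)| + |(Y2 J S q : ℝ)|) ≤
          10 ^ 40 * (K : ℝ) ^ 2 * J * (S.length : ℝ) ^ 27 := by exact_mod_cast hY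
      have hF0 := F0_le hr
      have hF0' := F0_ge hr
      have hF1 := F1_le hr
      have hF1' := F1_pos (p := (r : ℝ))
      set A := |(Y0 K J S q : ℝ)| with hA
      set B := |(Y1 K J S q : ℝ)| with hB
      set D := |(Y2 J S q : ℝ)| with hD
      have hA0 : 0 ≤ A := abs_nonneg _
      have hB0 : 0 ≤ B := abs_nonneg _
      have hD0 : 0 ≤ D := abs_nonneg _
      have h3 : |F0 (r : ℝ) * Y0 K J S q + F1 (r : ℝ) * Y1 K J S q + F2 (r : ℝ) * Y2 J S q| ≤
          (A + B + D) * (3 + F2 (r : ℝ)) := by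
        refine (abs_add_three _ _ _).trans ?_
        rw [abs_mul, abs_mul, abs_mul, ← hA, ← hB, ← hD, abs_of_pos (by linarith : 0 < F0 (r : ℝ)),
          abs_of_pos hF1', abs_of_pos hF2]
        have c1 : F0 (r : ℝ) * A ≤ 3 * A := mul_le_mul_of_nonneg_right (by linarith) hA0
        have c2 : F1 (r : ℝ) * B ≤ 3 * B := mul_le_mul_of_nonneg_right (by linarith) hB0
        have c3 : 0 ≤ F2 (r : ℝ) * A := by positivity
        have c4 : 0 ≤ F2 (r : ℝ) * B := by positivity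
        nlinarith
      have h4 : |(V (S, q) : ℝ)| ≤ (A + B + D) * (3 + F2 (r : ℝ)) + 2 := by
        have := abs_sub_abs_le_abs_sub (V (S, q) : ℝ) (F0 (r : ℝ) * Y0 K J S q +
          F1 (r : ℝ) * Y1 K J S q + F2 (r : ℝ) * Y2 J S q)
        simp only at h1
        linarith
      have h5 : (1 : ℝ) ≤ (S.length : ℝ) ^ 27 := one_le_pow₀ (by exact_mod_cast hS)
      have h6 : |(V (S, q) : ℝ)| ≤ (10 ^ 40 * (K : ℝ) ^ 2 * J * (3 + F2 (r : ℝ)) + 2) *
          (S.length : ℝ) ^ 27 := by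
        refine h4.trans ?_
        have h7 : (A + B + D) * (3 + F2 (r : ℝ)) ≤
            10 ^ 40 * (K : ℝ) ^ 2 * J * (S.length : ℝ) ^ 27 * (3 + F2 (r : ℝ)) :=
          mul_le_mul_of_nonneg_right h2 (by linarith)
        calc (A + B + D) * (3 + F2 (r : ℝ)) + 2 ≤
            10 ^ 40 * (K : ℝ) ^ 2 * J * (S.length : ℝ) ^ 27 * (3 + F2 (r : ℝ)) + 2 * (S.length : ℝ) ^ 27 := by
              linarith
          _ = _ := by ring
      have h8 := h6.trans (hκ2 κ l2 S.length hS)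
      exact_mod_cast h8
  refine ⟨κ, ?_, ?_⟩
  · have h := hardPr_X3Cr.trans (f := fun I : Inst => (PQ n (FJ K J I.1.length I.2) K I.1 I.2, ((V I : ℤ) : ℚ)))
      pf (Pr' := fun _ => True) (Q := MaxPk (r : ℝ) (n + 2) κ) (fun _ _ => trivial) fun I hI => by
        rw [hiff I hI]
        unfold MaxPk
        exact ⟨fun h => ⟨(hsmall I hI).1, (hsmall I hI).2, h⟩, fun h => h.2.2⟩
    exact h.toHardI.toNPHardP
  · have h := hardPr_X3Cr.trans (f := fun I : Inst => (PQ n (FJ K J I.1.length I.2) K I.1 I.2, ((V I : ℤ) : ℚ)))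
      pf (Pr' := fun _ => True) (Q := MaxP (r : ℝ) (n + 2)) (fun _ _ => trivial) fun I hI => hiff I hI
    exact h.toHardI.toNPHardP

end Pool.Agent.KS6_6.MD
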