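import Pool.Graph.R_seed8.H557R2.Tri.Search

/-!
# Partitioning points into triangles of maximum total `L_p` perimeter: definitions
-/

set_option autoImplicit false

namespace Pool.Agent.KS6_6.MD

open Pool.Agent.NPC Pool.Agent.H557R2.Tri

/-- The `L_p` distance of the points of `ℝ^s` with the given lists of coordinates. -/
noncomputable def dp (p : ℝ) (s : ℕ) (x y : List ℚ) : ℝ :=
  (∑ i : Fin s, |((x.getD i 0 : ℚ) : ℝ) - ((y.getD i 0 : ℚ) : ℝ)| ^ p) ^ (1 / p)

/-- The `L_p` perimeter of a triangle. -/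
noncomputable def perp (p : ℝ) (s : ℕ) (t : List ℚ × List ℚ × List ℚ) : ℝ :=
  dp p s t.1 t.2.1 + dp p s t.2.1 t.2.2 + dp p s t.2.2 t.1

/-- The value of a partition: the sum of the `L_p` perimeters. -/
noncomputable def valp (p : ℝ) (s : ℕ) (π : List (List ℚ × List ℚ × List ℚ)) : ℝ :=
  (π.map (perp p s)).sum

/-- All coordinates of the points of `P` are natural numbers, at most `N ^ k`, where `N` is the
number of points. -/
def SmallC (k : ℕ) (P : List (List ℚ)) : Prop :=
  ∀ l ∈ P, ∀ c ∈ l, ∃ n : ℕ, c = (n : ℚ) ∧ n ≤ P.length ^ k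

/-- `π` is a partition of `P` into triples with at least `1 - ε` times the maximum value. -/
def Near (p : ℝ) (s : ℕ) (ε : ℝ) (P : List (List ℚ)) (π : List (List ℚ × List ℚ × List ℚ)) : Prop :=
  IsPart P π ∧ ∀ π', IsPart P π' → (1 - ε) * valp p s π' ≤ valp p s π

end Pool.Agent.KS6_6.MD
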