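import Pool.Agent.KS6_6.MD.Main

/-!
# The point set
-/

set_option autoImplicit false

namespace Pool.Agent.KS6_6.MD

open Pool.Agent.NPC Pool.Agent.NPC.H632 Pool.Agent.H557R2.Tri

variable {p : ℝ}

/-- The coordinates of an element, in dimension `n + 2`. -/
def cq (n : ℕ) (F L : ℤ) (e : Elt) : List ℚ :=
  ((F * gX L e : ℤ) : ℚ) :: ((F * gY L e : ℤ) : ℚ) :: List.replicate n 0

theorem cq_length (n : ℕ) (F L : ℤ) (e : Elt) : (cq n F L e).length = n + 2 := by
  simp [cq]

theorem dp_cq (hp : 1 < p) (n : ℕ) {F L : ℤ} (hF : 0 ≤ F) (e e' : Elt) :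
    dp p (n + 2) (cq n F L e) (cq n F L e') = F * qd p L e e' := by
  have hp0 : 0 < p := by linarith
  unfold dp
  rw [Fin.sum_univ_succ, Fin.sum_univ_succ]
  have h0 : ∀ (e : Elt), (((cq n F L e).getD ((0 : Fin (n + 2)) : ℕ) 0 : ℚ) : ℝ) = (F : ℝ) * gX L e := by
    intro e
    simp [cq]
  have h1 : ∀ (e : Elt), (((cq n F L e).getD ((Fin.succ 0 : Fin (n + 2)) : ℕ) 0 : ℚ) : ℝ) =
      (F : ℝ) * gY L e := by
    intro e
    simp [cq]
  have h2 : ∀ (e : Elt) (i : Fin n),
      (((cq n F L e).getD ((Fin.succ (Fin.succ i) : Fin (n + 2)) : ℕ) 0 : ℚ) : ℝ) = 0 := by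
    intro e i
    simp [cq]
  simp only [h0, h1, h2, sub_self, abs_zero]
  rw [Real.zero_rpow hp0.ne', Finset.sum_const_zero, add_zero]
  unfold qd Np
  have hF' : (0 : ℝ) ≤ F := by exact_mod_cast hF
  have e1 : |(F : ℝ) * gX L e - F * gX L e'| ^ p + |(F : ℝ) * gY L e - F * gY L e'| ^ p =
      (F : ℝ) ^ p * (|(gX L e : ℝ) - gX L e'| ^ p + |(gY L e : ℝ) - gY L e'| ^ p) := by
    rw [← mul_sub, ← mul_sub, abs_mul, abs_mul, abs_of_nonneg hF', Real.mul_rpow hF' (abs_nonneg _),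
      Real.mul_rpow hF' (abs_nonneg _)]
    ring
  rw [e1, Real.mul_rpow (by positivity) (by positivity), ← Real.rpow_mul hF', mul_one_div_cancel hp0.ne',
    Real.rpow_one]

/-- A triple of values. -/
def f3 (f : Elt → List ℚ) (t : Elt × Elt × Elt) : List ℚ × List ℚ × List ℚ := (f t.1, f t.2.1, f t.2.2)

theorem perp_cq (hp : 1 < p) (n : ℕ) {F L : ℤ} (hF : 0 ≤ F) (t : Elt × Elt × Elt) :
    perp p (n + 2) (f3 (cq n F L) t) = F * perQ p L t := by
  unfold perp f3 perQ
  simp only [dp_cq hp n hF]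
  ring

theorem valp_cq (hp : 1 < p) (n : ℕ) {F L : ℤ} (hF : 0 ≤ F) (π : List (Elt × Elt × Elt)) :
    valp p (n + 2) (π.map (f3 (cq n F L))) = F * valQ p L π := by
  unfold valp valQ
  induction π with
  | nil => simp
  | cons t π ih =>
    simp only [List.map_cons, List.sum_cons]
    rw [ih, perp_cq hp n hF]
    ring

theorem flatMap_f3 (f : Elt → List ℚ) (π : List (Elt × Elt × Elt)) :
    (π.map (f3 f)).flatMap (fun t => [t.1, t.2.1, t.2.2]) = (π.flatMap el).map f := by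
  induction π with
  | nil => rfl
  | cons t π ih =>
    simp only [List.map_cons, List.flatMap_cons, List.map_append, ih]
    rfl

theorem exists_pre3 (f : Elt → List ℚ) (E : List Elt) : ∀ π' : List (List ℚ × List ℚ × List ℚ),
    (∀ p ∈ π'.flatMap (fun t => [t.1, t.2.1, t.2.2]), p ∈ E.map f) →
    ∃ π : List (Elt × Elt × Elt), π.map (f3 f) = π' ∧ ∀ e ∈ π.flatMap el, e ∈ E
  | [], _ => ⟨[], rfl, by simp⟩
  | t :: π', h => by
    obtain ⟨π, h1, h2⟩ := exists_pre3 f E π' fun p hp => h p (by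
      rw [List.flatMap_cons]; exact List.mem_append_right _ hp)
    obtain ⟨a, ha, ha'⟩ := List.mem_map.1 (h t.1 (by simp))
    obtain ⟨b, hb, hb'⟩ := List.mem_map.1 (h t.2.1 (by simp))
    obtain ⟨c, hc, hc'⟩ := List.mem_map.1 (h t.2.2 (by simp))
    refine ⟨(a, b, c) :: π, ?_, ?_⟩
    · rw [List.map_cons, h1]
      unfold f3
      simp only [ha', hb', hc']
    · intro e he
      rw [List.flatMap_cons, List.mem_append] at he
      rcases he with he | he
      · simp only [el, List.mem_cons, List.not_mem_nil, or_false] at he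
        rcases he with rfl | rfl | rfl
        · exact ha
        · exact hb
        · exact hc
      · exact h2 e he

theorem part_iff {E : List Elt} {f : Elt → List ℚ} (hnd : E.Nodup)
    (hinj : ∀ e ∈ E, ∀ e' ∈ E, f e = f e' → e = e') {π' : List (List ℚ × List ℚ × List ℚ)} :
    IsPart (E.map f) π' ↔ ∃ π : List (Elt × Elt × Elt), π' = π.map (f3 f) ∧ (π.flatMap el).Perm E := by
  have hnd' : (E.map f).Nodup := (List.nodup_map_iff_inj_on hnd).2 fun e he e' he' hc => hinj e he e' he' hc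
  constructor
  · intro hp
    unfold IsPart at hp
    obtain ⟨π, h1, h2⟩ := exists_pre3 f E π' fun p hp' => hp.mem_iff.1 hp'
    refine ⟨π, h1.symm, ?_⟩
    rw [← h1, flatMap_f3] at hp
    have h3 : (π.flatMap el).Nodup := List.Nodup.of_map _ (hp.nodup_iff.2 hnd')
    have h4 := hp.length_eq
    rw [List.length_map, List.length_map] at h4
    exact (List.subperm_of_subset h3 h2).perm_of_length_le (by omega)
  · rintro ⟨π, rfl, hp⟩
    unfold IsPart
    rw [flatMap_f3]
    exact hp.map _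

theorem cq_inj {n : ℕ} {F L H : ℤ} (hF : 0 < F) (hL : 24 * H < L) {e e' : Elt}
    (h1 : |e.2| ≤ H) (h2 : |e'.2| ≤ H) (h3 : e.1 < 3) (h4 : e'.1 < 3)
    (h : cq n F L e = cq n F L e') : e = e' := by
  unfold cq at h
  simp only [List.cons.injEq, Int.cast_inj] at h
  obtain ⟨hx, hy, -⟩ := h
  have hx' := mul_left_cancel₀ hF.ne' hx
  have hy' := mul_left_cancel₀ hF.ne' hy
  have a1 := abs_le.1 h1
  have a2 := abs_le.1 h2
  obtain ⟨c, x⟩ := e
  obtain ⟨d, y⟩ := e'
  simp only at *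
  have hc : c = 0 ∨ c = 1 ∨ c = 2 := by omega
  have hd : d = 0 ∨ d = 1 ∨ d = 2 := by omega
  unfold gX at hx'
  unfold gY at hy'
  rcases hc with rfl | rfl | rfl <;> rcases hd with rfl | rfl | rfl <;>
    simp only [if_true, one_ne_zero, OfNat.ofNat_ne_zero, OfNat.ofNat_ne_one, if_false] at hx' hy' <;>
    first
    | (exfalso; omega)
    | (refine Prod.ext rfl ?_; simp only; omega)

variable {S : List (ℕ × ℕ × ℕ)} {q : ℕ}

/-- The points. -/
def PQ (n : ℕ) (F : ℤ) (K : ℤ) (S : List (ℕ × ℕ × ℕ)) (q : ℕ) : List (List ℚ) :=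
  (EE S q).map (cq n F (LK K S.length q))

theorem LK_pos {K : ℤ} (hK : 1 ≤ K) (m q : ℕ) : 24 * HH m q < LK K m q :=
  (LL_pos m q).trans_le (LK_ge hK m q)

theorem pq_inj (h : Pr S q) {n : ℕ} {F K : ℤ} (hF : 0 < F) (hK : 1 ≤ K) :
    ∀ e ∈ EE S q, ∀ e' ∈ EE S q,
      cq n F (LK K S.length q) e = cq n F (LK K S.length q) e' → e = e' := fun _ he _ he' hc =>
  cq_inj hF (LK_pos hK _ _) (h.abs_le he) (h.abs_le he') (h.small he).2 (h.small he').2 hc

theorem pq_valid (h : Pr S q) (n : ℕ) {F K : ℤ} (hF : 0 < F) (hK : 1 ≤ K) :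
    Valid (n + 2) (PQ n F K S q) := by
  refine ⟨?_, ?_, ?_⟩
  · exact (List.nodup_map_iff_inj_on h.EE_nodup).2 fun e he e' he' hc => pq_inj h hF hK e he e' he' hc
  · intro l hl
    obtain ⟨e, -, rfl⟩ := List.mem_map.1 hl
    exact cq_length _ _ _ _
  · unfold PQ
    rw [List.length_map, EE_length]
    exact ⟨3 * S.length, by ring⟩

theorem pq_length (n : ℕ) (F K : ℤ) : (PQ n F K S q).length = 9 * S.length := by
  unfold PQ
  rw [List.length_map, EE_length]

theorem pq_part (h : Pr S q) (n : ℕ) {F K : ℤ} (hF : 0 < F) (hK : 1 ≤ K)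
    {π' : List (List ℚ × List ℚ × List ℚ)} :
    IsPart (PQ n F K S q) π' ↔ ∃ π : List (Elt × Elt × Elt),
      π' = π.map (f3 (cq n F (LK K S.length q))) ∧ (π.flatMap el).Perm (EE S q) :=
  part_iff h.EE_nodup (pq_inj h hF hK)

/-- the coordinates are natural numbers, at most `12 F L` -/
theorem pq_coord (h : Pr S q) {n : ℕ} {F K : ℤ} (hF : 0 < F) (hK : 1 ≤ K) {l : List ℚ}
    (hl : l ∈ PQ n F K S q) {c : ℚ} (hc : c ∈ l) :
    ∃ m : ℕ, c = (m : ℚ) ∧ (m : ℤ) ≤ F * (12 * LK K S.length q) := by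
  obtain ⟨e, he, rfl⟩ := List.mem_map.1 hl
  have hL := LK_pos hK S.length q
  have ha := abs_le.1 (h.abs_le he)
  have h3 := (h.small he).2
  have hH := (HH_ge S.length q).2
  set L := LK K S.length q with hLd
  have hx : 0 ≤ gX L e ∧ gX L e ≤ 12 * L := by
    unfold gX
    split_ifs <;> constructor <;> linarith
  have hy : 0 ≤ gY L e ∧ gY L e ≤ 12 * L := by
    unfold gY
    split_ifs <;> constructor <;> linarith
  unfold cq at hc
  rw [List.mem_cons, List.mem_cons] at hc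
  rcases hc with rfl | rfl | hc
  · refine ⟨(F * gX L e).toNat, ?_, ?_⟩
    · have : ((F * gX L e).toNat : ℤ) = F * gX L e := Int.toNat_of_nonneg (mul_nonneg hF.le hx.1)
      exact_mod_cast this.symm
    · rw [Int.toNat_of_nonneg (mul_nonneg hF.le hx.1)]
      exact mul_le_mul_of_nonneg_left hx.2 hF.le
  · refine ⟨(F * gY L e).toNat, ?_, ?_⟩
    · have : ((F * gY L e).toNat : ℤ) = F * gY L e := Int.toNat_of_nonneg (mul_nonneg hF.le hy.1)
      exact_mod_cast this.symm
    · rw [Int.toNat_of_nonneg (mul_nonneg hF.le hy.1)]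
      exact mul_le_mul_of_nonneg_left hy.2 hF.le
  · rw [List.mem_replicate] at hc
    refine ⟨0, by rw [hc.2]; simp, ?_⟩
    have : 0 ≤ L := by linarith
    positivity

end Pool.Agent.KS6_6.MD
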