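import Pool.Agent.KS6_6.MD.Tay

/-!
# The second order of the `L_p` perimeter
-/

set_option autoImplicit false

namespace Pool.Agent.KS6_6.MD

/-- the `L_p` norm in the plane -/
noncomputable def Np (p x y : ℝ) : ℝ := (|x| ^ p + |y| ^ p) ^ (1 / p)

variable {p : ℝ}

theorem Np_comm (x y : ℝ) : Np p x y = Np p y x := by unfold Np; rw [add_comm]

theorem Np_neg (x y : ℝ) : Np p (-x) (-y) = Np p x y := by unfold Np; rw [abs_neg, abs_neg]

theorem Np_neg_left (x y : ℝ) : Np p (-x) y = Np p x y := by unfold Np; rw [abs_neg]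

theorem Np_neg_right (x y : ℝ) : Np p x (-y) = Np p x y := by unfold Np; rw [abs_neg]

theorem Np_le (hp : 1 < p) (x y : ℝ) : Np p x y ≤ |x| + |y| := by
  unfold Np
  have hp0 : 0 < p := by linarith
  have h := Real.add_rpow_le_rpow_add (abs_nonneg x) (abs_nonneg y) hp.le
  calc (|x| ^ p + |y| ^ p) ^ (1 / p) ≤ ((|x| + |y|) ^ p) ^ (1 / p) := by
        apply Real.rpow_le_rpow (by positivity) h (by positivity)
    _ = |x| + |y| := by
        rw [← Real.rpow_mul (by positivity), mul_one_div_cancel hp0.ne', Real.rpow_one]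

theorem Np_eq (hp : 1 < p) {D d : ℝ} (hD : 0 < D) (hd : 0 ≤ d) : Np p D d = D * ph p (d / D) := by
  unfold Np ph
  have hp0 : 0 < p := by linarith
  rw [abs_of_pos hD, abs_of_nonneg hd]
  have h1 : D ^ p + d ^ p = D ^ p * (1 + (d / D) ^ p) := by
    rw [Real.div_rpow hd hD.le]
    have := Real.rpow_pos_of_pos hD p
    field_simp
  have h2 : 0 ≤ 1 + (d / D) ^ p := by positivity
  rw [h1, Real.mul_rpow (by positivity) h2, ← Real.rpow_mul hD.le, mul_one_div_cancel hp0.ne', Real.rpow_one]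

/-- the Taylor bound with constant `C` -/
def Tay (p C : ℝ) : Prop := 0 ≤ C ∧ ∀ s : ℝ, |s - 1 / 2| ≤ 1 / 4 →
    |ph p s - (F0 p + F1 p * (s - 1 / 2) + F2 p / 2 * (s - 1 / 2) ^ 2)| ≤ C * |s - 1 / 2| ^ 3

theorem Np_tay (hp : 1 < p) {C : ℝ} (hC : Tay p C) {D d : ℝ} (hD : 0 < D) (hd : |d - D / 2| ≤ D / 4) :
    |Np p D d - (F0 p * D + F1 p * (d - D / 2) + F2 p / 2 * ((d - D / 2) ^ 2 / D))| ≤
      C * (|d - D / 2| ^ 3 / D ^ 2) := by
  have h1 := abs_le.1 hd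
  have hd0 : 0 ≤ d := by linarith
  rw [Np_eq hp hD hd0]
  have e1 : d / D - 1 / 2 = (d - D / 2) / D := by field_simp
  have e2 : |d / D - 1 / 2| = |d - D / 2| / D := by rw [e1, abs_div, abs_of_pos hD]
  have h2 := hC.2 (d / D) (by rw [e2, div_le_iff₀ hD]; linarith)
  rw [e2, e1] at h2
  have e3 : D * ph p (d / D) - (F0 p * D + F1 p * (d - D / 2) + F2 p / 2 * ((d - D / 2) ^ 2 / D)) =
      D * (ph p (d / D) - (F0 p + F1 p * ((d - D / 2) / D) + F2 p / 2 * ((d - D / 2) / D) ^ 2)) := by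
    field_simp
  have e4 : C * (|d - D / 2| ^ 3 / D ^ 2) = D * (C * (|d - D / 2| / D) ^ 3) := by
    field_simp
  rw [e3, e4, abs_mul, abs_of_pos hD]
  exact mul_le_mul_of_nonneg_left h2 hD.le

/-- the error constant -/
noncomputable def EE1 (p C : ℝ) : ℝ := 34 * F2 p + 148 * C

theorem EE1_pos (hp : 1 < p) {C : ℝ} (hC : Tay p C) : 0 < EE1 p C := by
  have := F2_pos hp
  have := hC.1
  unfold EE1; linarith

theorem pair (hp : 1 < p) {C : ℝ} (hC : Tay p C) {D d D0 L H : ℝ} (hH : 1 ≤ H) (hL : 100 * H ≤ L)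
    (hD0 : 6 * L ≤ D0) (h1 : |D - D0| ≤ 10 * H) (hY : |d - D / 2| ≤ 11 * H) :
    |Np p D d - (F0 p * D + F1 p * (d - D / 2) + F2 p / 2 * ((d - D / 2) ^ 2 / D0))| ≤
      EE1 p C * (H ^ 3 / L ^ 2) := by
  have h2 := abs_le.1 h1
  have hH0 : 0 < H := by linarith
  have hL0 : 0 < L := by linarith
  have hD3 : 3 * L ≤ D := by linarith
  have hD : 0 < D := by linarith
  have hD00 : 0 < D0 := by linarith
  have h3 := Np_tay hp hC (d := d) hD (hY.trans (by linarith))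
  set Y := d - D / 2 with hYd
  have hF2 := F2_pos hp
  have hC0 := hC.1
  have hY2 : Y ^ 2 ≤ 121 * H ^ 2 := by
    have := pow_le_pow_left₀ (abs_nonneg _) hY 2
    rw [sq_abs] at this
    linarith
  have hY3 : |Y| ^ 3 ≤ 1331 * H ^ 3 := by
    have := pow_le_pow_left₀ (abs_nonneg _) hY 3
    linarith
  have a1 : |Y| ^ 3 / D ^ 2 ≤ 148 * (H ^ 3 / L ^ 2) := by
    have h9 : 9 * L ^ 2 ≤ D ^ 2 := by
      have := pow_le_pow_left₀ (by positivity) hD3 2
      linarith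
    calc |Y| ^ 3 / D ^ 2 ≤ 1331 * H ^ 3 / (9 * L ^ 2) := by
          apply div_le_div₀ (by positivity) hY3 (by positivity) h9
      _ ≤ 148 * (H ^ 3 / L ^ 2) := by
          have h10 : 0 ≤ H ^ 3 / L ^ 2 := by positivity
          have e : 1331 * H ^ 3 / (9 * L ^ 2) = 1331 / 9 * (H ^ 3 / L ^ 2) := by field_simp
          rw [e]; linarith
  have a2 : |Y ^ 2 / D - Y ^ 2 / D0| ≤ 68 * (H ^ 3 / L ^ 2) := by
    have e : Y ^ 2 / D - Y ^ 2 / D0 = Y ^ 2 * (D0 - D) / (D * D0) := by field_simp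
    rw [e, abs_div, abs_mul, abs_of_nonneg (sq_nonneg Y), abs_of_pos (by positivity : 0 < D * D0),
      abs_sub_comm]
    have h9 : 18 * L ^ 2 ≤ D * D0 := by
      calc 18 * L ^ 2 = (3 * L) * (6 * L) := by ring
        _ ≤ D * D0 := mul_le_mul hD3 hD0 (by positivity) hD.le
    calc Y ^ 2 * |D - D0| / (D * D0) ≤ (121 * H ^ 2 * (10 * H)) / (18 * L ^ 2) := by
          apply div_le_div₀ (by positivity) _ (by positivity) h9
          exact mul_le_mul hY2 h1 (abs_nonneg _) (by positivity)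
      _ ≤ 68 * (H ^ 3 / L ^ 2) := by
          have h10 : 0 ≤ H ^ 3 / L ^ 2 := by positivity
          have e : 121 * H ^ 2 * (10 * H) / (18 * L ^ 2) = 1210 / 18 * (H ^ 3 / L ^ 2) := by
            field_simp
            ring
          rw [e]; linarith
  have e5 : Np p D d - (F0 p * D + F1 p * Y + F2 p / 2 * (Y ^ 2 / D0)) =
      (Np p D d - (F0 p * D + F1 p * Y + F2 p / 2 * (Y ^ 2 / D))) + F2 p / 2 * (Y ^ 2 / D - Y ^ 2 / D0) := by ring
  rw [e5]
  refine (abs_add_le _ _).trans ?_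
  rw [abs_mul, abs_of_pos (by positivity : 0 < F2 p / 2)]
  have b1 := h3.trans (mul_le_mul_of_nonneg_left a1 hC0)
  have b2 := mul_le_mul_of_nonneg_left a2 (by positivity : 0 ≤ F2 p / 2)
  unfold EE1
  calc _ ≤ C * (148 * (H ^ 3 / L ^ 2)) + F2 p / 2 * (68 * (H ^ 3 / L ^ 2)) := add_le_add b1 b2
    _ = _ := by ring

/-- **The perimeter of a triangle with one corner near each of the corners of the big triangle.** -/
theorem per_bounds (hp : 1 < p) {C : ℝ} (hC : Tay p C) {a b c H L : ℝ} (hH : 1 ≤ H) (hL : 100 * H ≤ L)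
    (ha : |a| ≤ H) (hb : |b| ≤ H) (hc : |c| ≤ H) :
    |Np p (8 * L + 4 * b) (4 * L + 6 * b - 2 * a) + Np p (5 * L + 4 * b - 8 * c) (10 * L + 6 * b + 4 * c) +
      Np p (3 * L + 8 * c) (6 * L + 2 * a + 4 * c) -
      ((F0 p * (8 * L + 2 * a) - 3 * F1 p * a + F2 p / (2 * L) * (5 / 3 * a ^ 2)) +
        (F0 p * (8 * L + 10 * b) + 5 * F1 p * b + F2 p / (2 * L) * (31 / 10 * b ^ 2)) +
        (F0 p * (8 * L + 8 * c) - 4 * F1 p * c + F2 p / (2 * L) * (17 * c ^ 2)) -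
        F2 p / (2 * L) * (a + b + c) ^ 2)| ≤
      3 * EE1 p C * (H ^ 3 / L ^ 2) := by
  have hL0 : 0 < L := by linarith
  have ha' := abs_le.1 ha
  have hb' := abs_le.1 hb
  have hc' := abs_le.1 hc
  have h1 := pair hp hC (D := 8 * L + 4 * b) (d := 4 * L + 6 * b - 2 * a) (D0 := 8 * L) hH hL
    (by linarith) (by rw [abs_le]; constructor <;> linarith) (by rw [abs_le]; constructor <;> linarith)
  have h2 := pair hp hC (D := 6 * L + 2 * a + 4 * c) (d := 3 * L + 8 * c) (D0 := 6 * L) hH hL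
    (by linarith) (by rw [abs_le]; constructor <;> linarith) (by rw [abs_le]; constructor <;> linarith)
  have h3 := pair hp hC (D := 10 * L + 6 * b + 4 * c) (d := 5 * L + 4 * b - 8 * c) (D0 := 10 * L) hH hL
    (by linarith) (by rw [abs_le]; constructor <;> linarith) (by rw [abs_le]; constructor <;> linarith)
  rw [Np_comm (5 * L + 4 * b - 8 * c), Np_comm (3 * L + 8 * c)]
  generalize Np p (8 * L + 4 * b) (4 * L + 6 * b - 2 * a) = s1 at *
  generalize Np p (6 * L + 2 * a + 4 * c) (3 * L + 8 * c) = s2 at *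
  generalize Np p (10 * L + 6 * b + 4 * c) (5 * L + 4 * b - 8 * c) = s3 at *
  generalize F0 p = f0 at *
  generalize F1 p = f1 at *
  generalize F2 p = f2 at *
  have key : s1 + s3 + s2 -
      ((f0 * (8 * L + 2 * a) - 3 * f1 * a + f2 / (2 * L) * (5 / 3 * a ^ 2)) +
        (f0 * (8 * L + 10 * b) + 5 * f1 * b + f2 / (2 * L) * (31 / 10 * b ^ 2)) +
        (f0 * (8 * L + 8 * c) - 4 * f1 * c + f2 / (2 * L) * (17 * c ^ 2)) -
        f2 / (2 * L) * (a + b + c) ^ 2) =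
      (s1 - (f0 * (8 * L + 4 * b) + f1 * (4 * L + 6 * b - 2 * a - (8 * L + 4 * b) / 2) +
        f2 / 2 * ((4 * L + 6 * b - 2 * a - (8 * L + 4 * b) / 2) ^ 2 / (8 * L)))) +
      (s2 - (f0 * (6 * L + 2 * a + 4 * c) + f1 * (3 * L + 8 * c - (6 * L + 2 * a + 4 * c) / 2) +
        f2 / 2 * ((3 * L + 8 * c - (6 * L + 2 * a + 4 * c) / 2) ^ 2 / (6 * L)))) +
      (s3 - (f0 * (10 * L + 6 * b + 4 * c) + f1 * (5 * L + 4 * b - 8 * c - (10 * L + 6 * b + 4 * c) / 2) +
        f2 / 2 * ((5 * L + 4 * b - 8 * c - (10 * L + 6 * b + 4 * c) / 2) ^ 2 / (10 * L)))) := by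
    field_simp
    ring
  rw [key]
  have h4 : 3 * EE1 p C * (H ^ 3 / L ^ 2) = EE1 p C * (H ^ 3 / L ^ 2) + EE1 p C * (H ^ 3 / L ^ 2)
    + EE1 p C * (H ^ 3 / L ^ 2) := by ring
  rw [h4]
  exact (abs_add_three _ _ _).trans (add_le_add (add_le_add h1 h2) h3)

end Pool.Agent.KS6_6.MD
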