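import Pool.Agent.KS6_6.MD.Dec

/-!
# Reductions to the search problem
-/

set_option autoImplicit false

namespace Pool.Agent.KS6_6.MD

open Pool.Agent.NPC Pool.Agent.NPC.H632 Pool.Agent.H557R2.Tri

/-- Computing nearly optimal partitions is NP-hard: for every `L` in NP there are polynomial-time
functions `f`, `g` such that `f x` is an instance of `N` points (`N ≥ 1`) whose coordinates are natural
numbers `≤ N ^ k`, and from every partition `π` of `f x` with at least `1 - N ^ (-k)` times the maximum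
value, `g` decides whether `x` is in `L`. -/
def NearHard (p : ℝ) (s k : ℕ) : Prop :=
  ∀ L : Set (List Bool), InNP L → ∃ (f : List Bool → List (List ℚ)) (g : List Bool → List Bool),
    PolyTime (fun x => bits (f x)) ∧ PolyTime g ∧ ∀ x, Valid s (f x) ∧ f x ≠ [] ∧ SmallC k (f x) ∧
      ∀ π, Near p s (1 / ((f x).length : ℝ) ^ k) (f x) π → (x ∈ L ↔ g (pairBits x (bits π)) = [true])

theorem nearHard {p : ℝ} (hp : 1 < p) (n : ℕ) : ∃ k0 : ℕ, ∀ k : ℕ, k0 ≤ k → NearHard p (n + 2) k := by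
  obtain ⟨C, K, hK⟩ := exists_KOk hp
  obtain ⟨k0, hk0⟩ := exists_EOk hp (K : ℤ)
  refine ⟨k0, fun k hk L hL => ?_⟩
  have hE := hk0 k hk
  obtain ⟨f0, hf0, hpr, hfL⟩ := hardPr_X3Cr L hL
  have pf0 : Poly f0 := PC.comp (g := f0) (f := fun x => x) hf0 Pool.Agent.H622R2.rawOut
  let d : List Bool → Bool := fun y => (unbits (List (T × T × T)) (unpair y).2).elim false
    fun l => chkQ n K (f0 (unpair y).1) l
  have hd : Poly d := by
    refine Poly.optElim (poly_unbits.comp (Poly.snd poly_unpair)) (NPC.Poly.const _) ?_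
    exact poly_chkQ n K (pf0.comp (Poly.fst (poly_unpair.comp (Poly.fst Poly.id)))) (Poly.snd Poly.id)
  have hg : Poly fun y => [d y] := Poly.cons hd (NPC.Poly.const [])
  have hff : PC (fun x : List Bool => x) (bits : List (List ℚ) → List Bool)
      (fun x => PQ n 1 (K : ℤ) (f0 x).1 (f0 x).2) :=
    PC.comp (g := fun I : Inst => PQ n 1 (K : ℤ) I.1 I.2) (f := f0)
      (poly_PQ n (NPC.Poly.const 1) (K : ℤ)) hf0
  refine ⟨fun x => PQ n 1 (K : ℤ) (f0 x).1 (f0 x).2, fun y => [d y], PC.toPolyTime hff,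
    Pool.Agent.H622R2.polyTime_of_poly_list hg, fun x => ?_⟩
  have hI := hpr x
  have hne : PQ n 1 (K : ℤ) (f0 x).1 (f0 x).2 ≠ [] := by
    intro h0
    have h1 := pq_length (S := (f0 x).1) (q := (f0 x).2) n 1 (K : ℤ)
    rw [h0, List.length_nil] at h1
    have := List.length_pos_iff.2 hI.ne
    omega
  refine ⟨pq_valid hI n one_pos hK.k1, hne, pq_small hI hK.k1 hE, fun π' h2 => ?_⟩
  obtain ⟨π, rfl, hp'⟩ := (pq_part hI n one_pos hK.k1).1 h2.1
  rw [hfL x, show f0 x = ((f0 x).1, (f0 x).2) from rfl, near_zp hK hE hI n hp' h2, ← chkQ_iff hI n hK.k1 hp']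
  have e : d (pairBits x (bits (π.map (f3 (cq n 1 (LK K (f0 x).1.length (f0 x).2)))))) =
      chkQ n K ((f0 x).1, (f0 x).2) ((π.map (f3 (cq n 1 (LK K (f0 x).1.length (f0 x).2)))).map
      fun t => (toT t.1, toT t.2.1, toT t.2.2)) := by
    simp only [d]
    rw [unpair_pairBits, ← bits_codes, unbits_bits]
    rfl
  simp only [List.cons.injEq, and_true]
  rw [e]

end Pool.Agent.KS6_6.MD
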