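import Pool.Agent.KS6_6.MD.Pts

/-!
# The threshold
-/

set_option autoImplicit false

namespace Pool.Agent.KS6_6.MD

open Pool.Agent.NPC Pool.Agent.NPC.H632 Pool.Agent.H557R2.Tri

variable {S : List (ℕ × ℕ × ℕ)} {q : ℕ} {p : ℝ}

/-- the constant is large enough -/
structure KOk (p C : ℝ) (K : ℤ) : Prop where
  hp : 1 < p
  hC : Tay p C
  k1 : 1 ≤ K
  k2 : 2 * F2 p ≤ K
  k3 : EE1 p C ≤ K
  k4 : EE1 p C ≤ F2 p * K

theorem exists_KOk (hp : 1 < p) : ∃ (C : ℝ) (K : ℕ), KOk p C K := by
  obtain ⟨C, hC⟩ := ph_taylor hp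
  have hT : Tay p C := hC
  have hF := F2_pos hp
  have hE := EE1_pos hp hT
  obtain ⟨K, hK⟩ := exists_nat_ge (1 + 2 * F2 p + EE1 p C + EE1 p C / F2 p)
  have h1 : 0 < EE1 p C / F2 p := by positivity
  refine ⟨C, K, hp, hT, ?_, ?_, ?_, ?_⟩
  · have : (1 : ℝ) ≤ K := by linarith
    exact_mod_cast this
  · push_cast; linarith
  · push_cast; linarith
  · push_cast
    have h2 : EE1 p C / F2 p ≤ K := by linarith
    rw [div_le_iff₀ hF] at h2
    linarith

/-- The size of the big triangle. -/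
def LK (K : ℤ) (m q : ℕ) : ℤ := K * LL m q

theorem LK_ge {K : ℤ} (hK : 1 ≤ K) (m q : ℕ) : LL m q ≤ LK K m q := by
  unfold LK
  have h1 := (big (m := m) (q := q) (n := 0) (by omega)).hL
  have h2 := (HH_ge m q).2
  have h3 : 2000 * HH m q ≤ LL m q := by exact_mod_cast h1
  exact le_mul_of_one_le_left (by linarith) hK

theorem bigK {C : ℝ} {K : ℤ} (k : KOk p C K) {m q n : ℕ} (hn : n ≤ 3 * m) :
    Big p C (LK K m q) (TH m : ℤ) (HH m q) n := by
  have b := big (m := m) (q := q) hn
  have hH := b.hH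
  have hL := b.hL
  have hn' := b.hn
  have hθ : ((TH m : ℤ) : ℝ) + 1 ≤ LL m q := by exact_mod_cast b.hθ
  have hF := F2_pos k.hp
  have hE := EE1_pos k.hp k.hC
  have hL0 : (0 : ℝ) < LL m q := by linarith
  have hK1 : (1 : ℝ) ≤ K := by exact_mod_cast k.k1
  have e : ((LK K m q : ℤ) : ℝ) = K * LL m q := by unfold LK; push_cast; rfl
  have hT0 : (0 : ℝ) ≤ ((TH m : ℤ) : ℝ) := by
    unfold TH
    have : (0 : ℤ) ≤ 3 * m * (m * m) := by positivity
    exact_mod_cast this
  have h1 : (LL m q : ℝ) ≤ K * LL m q := le_mul_of_one_le_left hL0.le hK1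
  have hH0 : (0 : ℝ) < HH m q := by linarith
  have hHL : (HH m q : ℝ) ≤ LL m q := by linarith
  refine { hp := k.hp, hC := k.hC, hH := hH, hL := ?_, hF := ?_, hE := ?_, hn := ?_, hn2 := ?_, hθ := ?_ }
  · rw [e]; linarith
  · rw [e]
    exact mul_le_mul (by linarith [k.k2]) hHL hH0.le (by linarith)
  · rw [e]
    exact mul_le_mul k.k3 hHL hH0.le (by linarith)
  · rw [e]
    calc 12 * n * EE1 p C * (HH m q : ℝ) ^ 3 = EE1 p C * (12 * n * (HH m q : ℝ) ^ 3) := by ring
      _ ≤ (F2 p * K) * LL m q := by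
          apply mul_le_mul k.k4 _ (by positivity) (by positivity)
          have : 0 ≤ (n : ℝ) * (HH m q : ℝ) ^ 3 := by positivity
          linarith
      _ = F2 p * (K * LL m q) := by ring
  · rw [e]
    have h2 : (n : ℝ) * HH m q ≤ n * (HH m q : ℝ) ^ 3 := by
      apply mul_le_mul_of_nonneg_left _ (Nat.cast_nonneg n)
      nlinarith [sq_nonneg ((HH m q : ℝ) - 1), sq_nonneg (HH m q : ℝ)]
    have : 0 ≤ (n : ℝ) * (HH m q : ℝ) ^ 3 := by positivity
    nlinarith
  · rw [e]
    calc F2 p * (((TH m : ℤ) : ℝ) + 2) ≤ F2 p * (2 * LL m q) :=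
          mul_le_mul_of_nonneg_left (by linarith) hF.le
      _ = 2 * F2 p * LL m q := by ring
      _ ≤ K * LL m q := mul_le_mul_of_nonneg_right k.k2 hL0.le

/-- **The threshold**, from the value to the combinatorics. -/
theorem zp_of {C : ℝ} {K : ℤ} (k : KOk p C K) (h : Pr S q) {π : List (Elt × Elt × Elt)}
    (hp : (π.flatMap el).Perm (EE S q))
    (hv : SS p (LK K S.length q) (EE S q) - F2 p / (2 * LK K S.length q) * ((TH S.length : ℤ) + 3 / 2) ≤
      valQ p (LK K S.length q) π) : ZP S q π := by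
  have hmem : ∀ t ∈ π, ∀ e ∈ el t, e ∈ EE S q := fun t ht e he =>
    hp.mem_iff.1 (List.mem_flatMap.2 ⟨t, ht, he⟩)
  have hlen := len_eq hp
  have hb : Big p C (LK K S.length q) (TH S.length : ℤ) (HH S.length q) π.length := bigK k hlen.le
  have hm : 0 < S.length := List.length_pos_iff.2 h.ne
  have hm' : (1 : ℤ) ≤ S.length := by exact_mod_cast hm
  have hT0 : (0 : ℤ) ≤ TH S.length := by unfold TH; positivity
  obtain ⟨h1, h2'⟩ := thr_down (θ := (TH S.length : ℤ)) (by exact_mod_cast hT0) hb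
    (fun e he => h.small he) hp hv
  have h2 : QE π ≤ TH S.length + 2 := by exact_mod_cast h2'
  refine ⟨hp, fun t ht => ⟨h1 t ht, ?_⟩⟩
  obtain ⟨d, d0, d1, hd⟩ := hs_eq (hmem t ht) h.ne (h1 t ht)
  have h3 : hs t ^ 2 ≤ QE π := by
    unfold QE
    exact List.single_le_sum (by
      intro x hx
      obtain ⟨s, -, rfl⟩ := List.mem_map.1 hx
      exact sq_nonneg _) _ (List.mem_map_of_mem (f := fun t => hs t ^ 2) ht)
  by_contra hne
  have h4 : 1 ≤ |ms S.length t| := Int.one_le_abs hne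
  have hR : RR S.length = 4 * ((S.length + 1) * (S.length + 1)) := rfl
  have h5 : 3 * (((S.length : ℤ) + 1) * (S.length + 1)) ≤ |hs t| := by
    rw [hd]
    have h6 : |RR S.length * ms S.length t| = RR S.length * |ms S.length t| := by
      rw [abs_mul, abs_of_nonneg (by rw [hR]; positivity)]
    have h7 := abs_sub_abs_le_abs_sub (RR S.length * ms S.length t) (-d)
    rw [sub_neg_eq_add, abs_neg, abs_of_nonneg d0, h6] at h7
    have h8 : RR S.length ≤ RR S.length * |ms S.length t| :=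
      le_mul_of_one_le_right (by rw [hR]; positivity) h4
    nlinarith
  have h6 : (3 * (((S.length : ℤ) + 1) * (S.length + 1))) ^ 2 ≤ hs t ^ 2 := by
    rw [← sq_abs (hs t)]
    exact pow_le_pow_left₀ (by positivity) h5 2
  unfold TH at h2
  have h7 : (9 : ℤ) * ((S.length * S.length) * (S.length * S.length)) + 9 ≤
      (3 * (((S.length : ℤ) + 1) * (S.length + 1))) ^ 2 := by
    nlinarith [mul_nonneg (by linarith : (0 : ℤ) ≤ S.length) (by linarith : (0 : ℤ) ≤ S.length),
      mul_nonneg (mul_nonneg (by linarith : (0 : ℤ) ≤ S.length)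
        (by linarith : (0 : ℤ) ≤ S.length)) (by linarith : (0 : ℤ) ≤ S.length)]
  have h8 : (3 : ℤ) * S.length * (S.length * S.length) ≤
      9 * ((S.length * S.length) * (S.length * S.length)) := by
    have : (0 : ℤ) ≤ S.length * (S.length * S.length) := by positivity
    nlinarith
  linarith

/-- **The threshold**, from the combinatorics to the value. -/
theorem of_zp {C : ℝ} {K : ℤ} (k : KOk p C K) (h : Pr S q) {π : List (Elt × Elt × Elt)}
    (hz : ZP S q π) :
    SS p (LK K S.length q) (EE S q) - F2 p / (2 * LK K S.length q) * ((TH S.length : ℤ) + 1 / 2) ≤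
      valQ p (LK K S.length q) π := by
  obtain ⟨hp, hz⟩ := hz
  have hmem : ∀ t ∈ π, ∀ e ∈ el t, e ∈ EE S q := fun t ht e he =>
    hp.mem_iff.1 (List.mem_flatMap.2 ⟨t, ht, he⟩)
  have hlen := len_eq hp
  have hb : Big p C (LK K S.length q) (TH S.length : ℤ) (HH S.length q) π.length := bigK k hlen.le
  have hm : 0 < S.length := List.length_pos_iff.2 h.ne
  have hm' : (1 : ℤ) ≤ S.length := by exact_mod_cast hm
  refine thr_up hb (fun e he => h.small he) hp (fun t ht => (hz t ht).1) ?_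
  have h1 : ∀ t ∈ π, hs t ^ 2 ≤ (S.length : ℤ) * S.length := by
    intro t ht
    obtain ⟨d, d0, d1, hd⟩ := hs_eq (hmem t ht) h.ne (hz t ht).1
    rw [(hz t ht).2, mul_zero, zero_add] at hd
    rw [hd]
    nlinarith
  have h2 : QE π ≤ π.length * ((S.length : ℤ) * S.length) := by
    unfold QE
    clear hz hmem hlen hb hp
    induction π with
    | nil => simp
    | cons t π ih =>
      have h3 := ih fun t ht => h1 t (List.mem_cons_of_mem _ ht)
      have h4 := h1 t (List.mem_cons_self ..)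
      simp only [List.map_cons, List.sum_cons, List.length_cons]
      push_cast
      linarith
  rw [hlen] at h2
  have h3 : QE π ≤ TH S.length := by
    unfold TH
    push_cast at h2
    linarith
  exact_mod_cast h3

end Pool.Agent.KS6_6.MD
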