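import Pool.Agent.KS6_6.MD.Defs
import Pool.Agent.KS6_6.MD.Geo

/-!
# Points near the corners of a big triangle with sides parallel to `(2, 1)`, `(1, 2)`, `(1, -2)`
-/

set_option autoImplicit false

namespace Pool.Agent.KS6_6.MD

open Pool.Agent.NPC Pool.Agent.NPC.H632 Pool.Agent.H557R2.Tri

/-- The abscissa. -/
def gX (L : ℤ) (e : Elt) : ℤ :=
  if e.1 = 0 then 0 else if e.1 = 1 then 8 * L + 4 * e.2 else 3 * L + 8 * e.2
/-- The ordinate. -/
def gY (L : ℤ) (e : Elt) : ℤ :=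
  if e.1 = 0 then 7 * L + 2 * e.2 else if e.1 = 1 then 11 * L + 6 * e.2 else L - 4 * e.2

/-- The distance, before scaling. -/
noncomputable def qd (p : ℝ) (L : ℤ) (e e' : Elt) : ℝ :=
  Np p ((gX L e : ℝ) - gX L e') ((gY L e : ℝ) - gY L e')

/-- The perimeter, before scaling. -/
noncomputable def perQ (p : ℝ) (L : ℤ) (t : Elt × Elt × Elt) : ℝ :=
  qd p L t.1 t.2.1 + qd p L t.2.1 t.2.2 + qd p L t.2.2 t.1

/-- The separable part of the perimeter. -/
noncomputable def sepQ (p : ℝ) (L : ℤ) (e : Elt) : ℝ :=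
  if e.1 = 0 then F0 p * (8 * L + 2 * e.2) - 3 * F1 p * e.2 + F2 p / (2 * L) * (5 / 3 * (e.2 : ℝ) ^ 2)
  else if e.1 = 1 then F0 p * (8 * L + 10 * e.2) + 5 * F1 p * e.2 + F2 p / (2 * L) * (31 / 10 * (e.2 : ℝ) ^ 2)
  else F0 p * (8 * L + 8 * e.2) - 4 * F1 p * e.2 + F2 p / (2 * L) * (17 * (e.2 : ℝ) ^ 2)

variable {p : ℝ}

theorem qd_comm (L : ℤ) (e e' : Elt) : qd p L e e' = qd p L e' e := by
  unfold qd
  rw [← Np_neg]
  congr 1 <;> ring

/-- The assumptions on the sizes, for the geometry. -/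
structure Geo (p C : ℝ) (L : ℤ) (H : ℝ) : Prop where
  hp : 1 < p
  hC : Tay p C
  hH : 1 ≤ H
  hL : 100 * H ≤ L
  hF : F2 p * H ≤ L
  hE : EE1 p C * H ≤ L

theorem Geo.L0 {C : ℝ} {L : ℤ} {H : ℝ} (g : Geo p C L H) : (0 : ℝ) < L := by
  have := g.hL; have := g.hH; linarith

theorem Geo.err {C : ℝ} {L : ℤ} {H : ℝ} (g : Geo p C L H) : EE1 p C * (H ^ 3 / (L : ℝ) ^ 2) ≤ H := by
  have hL0 := g.L0
  have h1 := g.hE
  have h2 := g.hL
  have h3 := g.hH
  have h4 := EE1_pos g.hp g.hC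
  have e : EE1 p C * (H ^ 3 / (L : ℝ) ^ 2) = (EE1 p C * H) * H ^ 2 / (L : ℝ) ^ 2 := by ring
  rw [e, div_le_iff₀ (by positivity)]
  have h5 : H ≤ L := by linarith
  calc EE1 p C * H * H ^ 2 ≤ L * H ^ 2 := mul_le_mul_of_nonneg_right h1 (by positivity)
    _ = H * (L * H) := by ring
    _ ≤ H * (L * L) := by
        apply mul_le_mul_of_nonneg_left _ (by linarith)
        exact mul_le_mul_of_nonneg_left h5 hL0.le
    _ = H * (L : ℝ) ^ 2 := by ring

theorem per_trans_aux {C : ℝ} {L : ℤ} {H : ℝ} (g : Geo p C L H) {a b c : Elt}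
    (ha : |(a.2 : ℝ)| ≤ H) (hb : |(b.2 : ℝ)| ≤ H) (hc : |(c.2 : ℝ)| ≤ H) (h0 : a.1 = 0)
    (h1 : b.1 = 1) (h2 : c.1 = 2) :
    |qd p L a b + qd p L b c + qd p L c a - (sepQ p L a + sepQ p L b + sepQ p L c -
      F2 p / (2 * L) * ((a.2 + b.2 + c.2 : ℤ) : ℝ) ^ 2)| ≤ 3 * EE1 p C * (H ^ 3 / (L : ℝ) ^ 2) := by
  have h := per_bounds g.hp g.hC g.hH g.hL ha hb hc
  have e1 : qd p L a b = Np p (8 * L + 4 * b.2) (4 * L + 6 * b.2 - 2 * a.2) := by
    unfold qd gX gY
    simp only [h0, h1, if_true, one_ne_zero, if_false]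
    rw [← Np_neg]
    push_cast
    congr 1 <;> ring
  have e2 : qd p L b c = Np p (5 * L + 4 * b.2 - 8 * c.2) (10 * L + 6 * b.2 + 4 * c.2) := by
    unfold qd gX gY
    simp only [h1, h2, if_true, one_ne_zero, if_false, OfNat.ofNat_ne_zero, OfNat.ofNat_ne_one]
    push_cast
    congr 1 <;> ring
  have e3 : qd p L c a = Np p (3 * L + 8 * c.2) (6 * L + 2 * a.2 + 4 * c.2) := by
    unfold qd gX gY
    simp only [h0, h2, if_true, if_false, OfNat.ofNat_ne_zero, OfNat.ofNat_ne_one]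
    rw [← Np_neg_right]
    push_cast
    congr 1 <;> ring
  have e4 : sepQ p L a = F0 p * (8 * L + 2 * a.2) - 3 * F1 p * a.2 + F2 p / (2 * L) * (5 / 3 * (a.2 : ℝ) ^ 2) := by
    simp [sepQ, h0]
  have e5 : sepQ p L b = F0 p * (8 * L + 10 * b.2) + 5 * F1 p * b.2 + F2 p / (2 * L) * (31 / 10 * (b.2 : ℝ) ^ 2) := by
    simp [sepQ, h1]
  have e6 : sepQ p L c = F0 p * (8 * L + 8 * c.2) - 4 * F1 p * c.2 + F2 p / (2 * L) * (17 * (c.2 : ℝ) ^ 2) := by
    simp [sepQ, h2]
  rw [e1, e2, e3, e4, e5, e6]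
  push_cast
  exact h

theorem per_trans {C : ℝ} {L : ℤ} {H : ℝ} (g : Geo p C L H) {t : Elt × Elt × Elt}
    (ha : |(t.1.2 : ℝ)| ≤ H) (hb : |(t.2.1.2 : ℝ)| ≤ H) (hc : |(t.2.2.2 : ℝ)| ≤ H)
    (ht : Trans t) :
    |perQ p L t - (sepQ p L t.1 + sepQ p L t.2.1 + sepQ p L t.2.2 - F2 p / (2 * L) * ((hs t : ℤ) : ℝ) ^ 2)| ≤
      3 * EE1 p C * (H ^ 3 / (L : ℝ) ^ 2) := by
  obtain ⟨u, v, w⟩ := t
  unfold perQ hs
  simp only at *
  rcases ht with ⟨h0, h1, h2⟩ | ⟨h0, h1, h2⟩ | ⟨h0, h1, h2⟩ | ⟨h0, h1, h2⟩ | ⟨h0, h1, h2⟩ |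
    ⟨h0, h1, h2⟩ <;> simp only at h0 h1 h2
  · exact per_trans_aux g ha hb hc h0 h1 h2
  · have := per_trans_aux g ha hc hb h0 h2 h1
    rw [qd_comm L u w, qd_comm L w v, qd_comm L v u] at this
    refine le_of_eq_of_le (congrArg _ ?_) this
    push_cast; ring
  · have := per_trans_aux g hb ha hc h1 h0 h2
    rw [qd_comm L v u, qd_comm L u w, qd_comm L w v] at this
    refine le_of_eq_of_le (congrArg _ ?_) this
    push_cast; ring
  · have := per_trans_aux g hc ha hb h2 h0 h1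
    refine le_of_eq_of_le (congrArg _ ?_) this
    push_cast; ring
  · have := per_trans_aux g hb hc ha h1 h2 h0
    refine le_of_eq_of_le (congrArg _ ?_) this
    push_cast; ring
  · have := per_trans_aux g hc hb ha h2 h1 h0
    rw [qd_comm L w v, qd_comm L v u, qd_comm L u w] at this
    refine le_of_eq_of_le (congrArg _ ?_) this
    push_cast; ring

/-- The distances within a cluster are small. -/
theorem qd_le_same (hp : 1 < p) {L : ℤ} {H : ℝ} {e e' : Elt} (he : |(e.2 : ℝ)| ≤ H)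
    (he' : |(e'.2 : ℝ)| ≤ H) (h3 : e.1 < 3) (h : e.1 = e'.1) : qd p L e e' ≤ 24 * H := by
  have h1 := abs_le.1 he
  have h2 := abs_le.1 he'
  have h4 : e.1 = 0 ∨ e.1 = 1 ∨ e.1 = 2 := by omega
  unfold qd
  refine (Np_le hp _ _).trans ?_
  rcases h4 with h4 | h4 | h4
  · have h5 : e'.1 = 0 := h ▸ h4
    simp only [gX, gY, h4, h5, if_true]
    push_cast
    have a2 : |7 * (L : ℝ) + 2 * e.2 - (7 * L + 2 * e'.2)| ≤ 4 * H := by
      rw [abs_le]; constructor <;> linarith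
    rw [sub_self, abs_zero]
    linarith
  · have h5 : e'.1 = 1 := h ▸ h4
    simp only [gX, gY, h4, h5, if_true, one_ne_zero, if_false]
    push_cast
    have a1 : |8 * (L : ℝ) + 4 * e.2 - (8 * L + 4 * e'.2)| ≤ 8 * H := by
      rw [abs_le]; constructor <;> linarith
    have a2 : |11 * (L : ℝ) + 6 * e.2 - (11 * L + 6 * e'.2)| ≤ 12 * H := by
      rw [abs_le]; constructor <;> linarith
    linarith
  · have h5 : e'.1 = 2 := h ▸ h4
    simp only [gX, gY, h4, h5, OfNat.ofNat_ne_zero, OfNat.ofNat_ne_one, if_false]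
    push_cast
    have a1 : |3 * (L : ℝ) + 8 * e.2 - (3 * L + 8 * e'.2)| ≤ 16 * H := by
      rw [abs_le]; constructor <;> linarith
    have a2 : |(L : ℝ) - 4 * e.2 - (L - 4 * e'.2)| ≤ 8 * H := by
      rw [abs_le]; constructor <;> linarith
    linarith

theorem cross_le {C : ℝ} {L : ℤ} {H : ℝ} (g : Geo p C L H) {D d D0 : ℝ}
    (hD0 : 6 * (L : ℝ) ≤ D0) (hD10 : D0 ≤ 10 * L) (h1 : |D - D0| ≤ 10 * H) (hY : |d - D / 2| ≤ 11 * H) :
    Np p D d ≤ 10 * F0 p * L + 38 * H := by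
  have h := (abs_le.1 (pair g.hp g.hC g.hH g.hL hD0 h1 hY)).2
  have hL0 := g.L0
  have hH0 : 0 < H := by linarith [g.hH]
  have h2 := (abs_le.1 h1).2
  have a0 : F0 p * D ≤ 10 * F0 p * L + 15 * H := by
    have hF0 := F0_le g.hp
    have hF0' := F0_ge g.hp
    have : D ≤ 10 * L + 10 * H := by linarith
    calc F0 p * D ≤ F0 p * (10 * L + 10 * H) := mul_le_mul_of_nonneg_left this (by linarith)
      _ = 10 * F0 p * L + F0 p * (10 * H) := by ring
      _ ≤ 10 * F0 p * L + 3 / 2 * (10 * H) := by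
          have := mul_le_mul_of_nonneg_right hF0 (by positivity : 0 ≤ 10 * H)
          linarith
      _ = _ := by ring
  have a1 : F1 p * (d - D / 2) ≤ 11 * H := by
    have hF1 := F1_le g.hp
    have hF1' := F1_pos (p := p)
    calc F1 p * (d - D / 2) ≤ F1 p * (11 * H) := mul_le_mul_of_nonneg_left ((le_abs_self _).trans hY) hF1'.le
      _ ≤ 1 * (11 * H) := mul_le_mul_of_nonneg_right hF1 (by positivity)
      _ = _ := by ring
  have a2 : F2 p / 2 * ((d - D / 2) ^ 2 / D0) ≤ 11 * H := by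
    have hF2 := F2_pos g.hp
    have hY2 : (d - D / 2) ^ 2 ≤ 121 * H ^ 2 := by
      have := pow_le_pow_left₀ (abs_nonneg _) hY 2
      rw [sq_abs] at this
      linarith
    have hD00 : 0 < D0 := by linarith
    have h4 : (d - D / 2) ^ 2 / D0 ≤ 121 * H ^ 2 / (6 * L) :=
      div_le_div₀ (by positivity) hY2 (by positivity) hD0
    calc F2 p / 2 * ((d - D / 2) ^ 2 / D0) ≤ F2 p / 2 * (121 * H ^ 2 / (6 * L)) :=
          mul_le_mul_of_nonneg_left h4 (by positivity)
      _ = (F2 p * H) * (121 / 12 * H) / L := by field_simp; ring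
      _ ≤ L * (121 / 12 * H) / L := by
          apply div_le_div_of_nonneg_right _ hL0.le
          exact mul_le_mul_of_nonneg_right g.hF (by positivity)
      _ = 121 / 12 * H := by field_simp
      _ ≤ 11 * H := by linarith
  have a3 := g.err
  linarith

theorem qd_le_aux {C : ℝ} {L : ℤ} {H : ℝ} (g : Geo p C L H) {e e' : Elt}
    (he : |(e.2 : ℝ)| ≤ H) (he' : |(e'.2 : ℝ)| ≤ H) (h3 : e'.1 < 3) (h : e.1 < e'.1) :
    qd p L e e' ≤ 10 * F0 p * L + 38 * H := by
  have h1 := abs_le.1 he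
  have h2 := abs_le.1 he'
  have hL0 := g.L0
  have h4 : (e.1 = 0 ∧ e'.1 = 1) ∨ (e.1 = 0 ∧ e'.1 = 2) ∨ (e.1 = 1 ∧ e'.1 = 2) := by omega
  rcases h4 with ⟨h4, h5⟩ | ⟨h4, h5⟩ | ⟨h4, h5⟩
  · have e1 : qd p L e e' = Np p (8 * L + 4 * e'.2) (4 * L + 6 * e'.2 - 2 * e.2) := by
      unfold qd gX gY
      simp only [h4, h5, if_true, one_ne_zero, if_false]
      rw [← Np_neg]
      push_cast
      congr 1 <;> ring
    rw [e1]
    exact cross_le g (D0 := 8 * L) (by linarith) (by linarith)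
      (by rw [abs_le]; constructor <;> linarith) (by rw [abs_le]; constructor <;> linarith)
  · have e1 : qd p L e e' = Np p (6 * L + 2 * e.2 + 4 * e'.2) (3 * L + 8 * e'.2) := by
      unfold qd gX gY
      simp only [h4, h5, if_true, if_false, OfNat.ofNat_ne_zero, OfNat.ofNat_ne_one]
      rw [Np_comm, ← Np_neg_right]
      push_cast
      congr 1 <;> ring
    rw [e1]
    exact cross_le g (D0 := 6 * L) (by linarith) (by linarith)
      (by rw [abs_le]; constructor <;> linarith) (by rw [abs_le]; constructor <;> linarith)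
  · have e1 : qd p L e e' = Np p (10 * L + 6 * e.2 + 4 * e'.2) (5 * L + 4 * e.2 - 8 * e'.2) := by
      unfold qd gX gY
      simp only [h4, h5, if_true, one_ne_zero, if_false, OfNat.ofNat_ne_zero, OfNat.ofNat_ne_one]
      rw [Np_comm]
      push_cast
      congr 1 <;> ring
    rw [e1]
    exact cross_le g (D0 := 10 * L) (by linarith) (by linarith)
      (by rw [abs_le]; constructor <;> linarith) (by rw [abs_le]; constructor <;> linarith)

/-- All distances are at most `10 F0 L`, approximately. -/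
theorem qd_le {C : ℝ} {L : ℤ} {H : ℝ} (g : Geo p C L H) {e e' : Elt} (he : |(e.2 : ℝ)| ≤ H)
    (he' : |(e'.2 : ℝ)| ≤ H) (h3 : e.1 < 3) (h3' : e'.1 < 3) : qd p L e e' ≤ 10 * F0 p * L + 38 * H := by
  have hH : 0 ≤ H := (abs_nonneg _).trans he
  rcases lt_trichotomy e.1 e'.1 with h | h | h
  · exact qd_le_aux g he he' h3' h
  · have h1 := qd_le_same g.hp (L := L) he he' h3 h
    have h2 := F0_ge g.hp
    have h3 := g.L0
    have h4 : 0 ≤ F0 p * L := by positivity
    linarith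
  · rw [qd_comm]
    exact qd_le_aux g he' he h3 h

/-- Triples that are not transversal have a smaller perimeter. -/
theorem per_not_trans {C : ℝ} {L : ℤ} {H : ℝ} (g : Geo p C L H) {t : Elt × Elt × Elt}
    (ha : |(t.1.2 : ℝ)| ≤ H) (hb : |(t.2.1.2 : ℝ)| ≤ H) (hc : |(t.2.2.2 : ℝ)| ≤ H)
    (h1 : t.1.1 < 3) (h2 : t.2.1.1 < 3) (h3 : t.2.2.1 < 3) (ht : ¬ Trans t) :
    perQ p L t ≤ 20 * F0 p * L + 100 * H := by
  have hs : t.1.1 = t.2.1.1 ∨ t.2.1.1 = t.2.2.1 ∨ t.2.2.1 = t.1.1 := by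
    unfold Pool.Agent.H557R2.Tri.Trans at ht
    omega
  have b1 := qd_le g ha hb h1 h2
  have b2 := qd_le g hb hc h2 h3
  have b3 := qd_le g hc ha h3 h1
  unfold perQ
  rcases hs with h | h | h
  · have := qd_le_same g.hp (L := L) ha hb h1 h
    linarith
  · have := qd_le_same g.hp (L := L) hb hc h2 h
    linarith
  · have := qd_le_same g.hp (L := L) hc ha h3 h
    linarith

/-! ### Values of partitions -/

/-- The value, before scaling. -/
noncomputable def valQ (p : ℝ) (L : ℤ) (π : List (Elt × Elt × Elt)) : ℝ := (π.map (perQ p L)).sum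

theorem sum_sepQ (L : ℤ) (π : List (Elt × Elt × Elt)) :
    ((π.flatMap el).map (sepQ p L)).sum =
      (π.map fun t => sepQ p L t.1 + sepQ p L t.2.1 + sepQ p L t.2.2).sum := by
  induction π with
  | nil => rfl
  | cons t π ih =>
    rw [List.flatMap_cons, List.map_append, List.sum_append, ih]
    simp only [el, List.map_cons, List.map_nil, List.sum_cons, List.sum_nil]
    ring

theorem val_trans {C : ℝ} {L : ℤ} {H : ℝ} (g : Geo p C L H)
    (π : List (Elt × Elt × Elt)) (h : ∀ e ∈ π.flatMap el, Small H e) (ht : ∀ t ∈ π, Trans t) :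
    |valQ p L π - (((π.flatMap el).map (sepQ p L)).sum - F2 p / (2 * L) * (QE π : ℝ))| ≤
      π.length * (3 * EE1 p C * (H ^ 3 / (L : ℝ) ^ 2)) := by
  rw [sum_sepQ]
  induction π with
  | nil => simp [valQ, QE]
  | cons t π ih =>
    have ih' := ih (fun e he => h e (by rw [List.flatMap_cons]; exact List.mem_append_right _ he))
      (fun t ht' => ht t (List.mem_cons_of_mem _ ht'))
    have hm : ∀ e ∈ el t, Small H e := fun e he =>
      h e (by rw [List.flatMap_cons]; exact List.mem_append_left _ he)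
    have h1 := per_trans g (hm t.1 (by simp [el])).1 (hm t.2.1 (by simp [el])).1
      (hm t.2.2 (by simp [el])).1 (ht t (List.mem_cons_self ..))
    unfold valQ QE at *
    simp only [List.map_cons, List.sum_cons, List.length_cons, Int.cast_add, Int.cast_pow,
      Nat.cast_add, Nat.cast_one]
    have h2 := abs_le.1 ih'
    have h3 := abs_le.1 h1
    generalize (3 * EE1 p C * (H ^ 3 / (L : ℝ) ^ 2)) = ε at *
    have e1 : F2 p / (2 * L) * ((hs t : ℝ) ^ 2 + ((π.map fun t => hs t ^ 2).sum : ℤ)) =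
      F2 p / (2 * L) * (hs t : ℝ) ^ 2 + F2 p / (2 * L) * ((π.map fun t => hs t ^ 2).sum : ℤ) := by ring
    rw [e1, abs_le]
    constructor <;> linarith

theorem sepQ_le {C : ℝ} {L : ℤ} {H : ℝ} (g : Geo p C L H) {e : Elt} (he : Small H e) :
    sepQ p L e ≤ 8 * F0 p * L + 29 * H ∧ 8 * F0 p * L - 20 * H ≤ sepQ p L e := by
  have hL0 := g.L0
  have h1 := abs_le.1 he.1
  have hH0 : 0 < H := by linarith [g.hH]
  have hF0 := F0_le g.hp
  have hF0' := F0_ge g.hp
  have hF1 := F1_le g.hp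
  have hF1' := F1_pos (p := p)
  have hF2 := F2_pos g.hp
  have h3 : (e.2 : ℝ) ^ 2 ≤ H ^ 2 := by
    have := pow_le_pow_left₀ (abs_nonneg _) he.1 2
    rwa [sq_abs] at this
  have h4 : F2 p / (2 * L) * (e.2 : ℝ) ^ 2 ≤ H / 2 := by
    calc F2 p / (2 * L) * (e.2 : ℝ) ^ 2 ≤ F2 p / (2 * L) * H ^ 2 :=
          mul_le_mul_of_nonneg_left h3 (by positivity)
      _ = (F2 p * H) * H / (2 * L) := by ring
      _ ≤ L * H / (2 * L) := by
          apply div_le_div_of_nonneg_right _ (by positivity)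
          exact mul_le_mul_of_nonneg_right g.hF hH0.le
      _ = H / 2 := by field_simp
  have h5 : 0 ≤ F2 p / (2 * L) * (e.2 : ℝ) ^ 2 := by positivity
  have h7 : |F0 p * e.2| ≤ 3 / 2 * H := by
    rw [abs_mul, abs_of_pos (by linarith)]
    exact mul_le_mul hF0 he.1 (abs_nonneg _) (by norm_num)
  have h8 : |F1 p * e.2| ≤ H := by
    rw [abs_mul, abs_of_pos hF1']
    calc F1 p * |(e.2 : ℝ)| ≤ 1 * H := mul_le_mul hF1 he.1 (abs_nonneg _) (by norm_num)
      _ = H := one_mul _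
  have h7' := abs_le.1 h7
  have h8' := abs_le.1 h8
  have h6 : e.1 = 0 ∨ e.1 = 1 ∨ e.1 = 2 := by have := he.2; omega
  rcases h6 with h6 | h6 | h6
  · have e1 : sepQ p L e = 8 * F0 p * L + 2 * (F0 p * e.2) - 3 * (F1 p * e.2) +
        5 / 3 * (F2 p / (2 * L) * (e.2 : ℝ) ^ 2) := by
      simp only [sepQ, h6, if_true]; ring
    rw [e1]; constructor <;> linarith
  · have e1 : sepQ p L e = 8 * F0 p * L + 10 * (F0 p * e.2) + 5 * (F1 p * e.2) +
        31 / 10 * (F2 p / (2 * L) * (e.2 : ℝ) ^ 2) := by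
      simp only [sepQ, h6, one_ne_zero, if_false, if_true]; ring
    rw [e1]; constructor <;> linarith
  · have e1 : sepQ p L e = 8 * F0 p * L + 8 * (F0 p * e.2) - 4 * (F1 p * e.2) +
        17 * (F2 p / (2 * L) * (e.2 : ℝ) ^ 2) := by
      simp only [sepQ, h6, OfNat.ofNat_ne_zero, OfNat.ofNat_ne_one, if_false]; ring
    rw [e1]; constructor <;> linarith

theorem per_le {C : ℝ} {L : ℤ} {H : ℝ} (g : Geo p C L H) {t : Elt × Elt × Elt}
    (h : ∀ e ∈ el t, Small H e) : perQ p L t ≤ 24 * F0 p * L + 100 * H := by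
  have hL0 := g.L0
  have hH0 : 0 < H := by linarith [g.hH]
  have h1 := h t.1 (by simp [el])
  have h2 := h t.2.1 (by simp [el])
  have h3 := h t.2.2 (by simp [el])
  have hF0' := F0_ge g.hp
  have hF2 := F2_pos g.hp
  by_cases ht : Trans t
  · have h4 := per_trans g h1.1 h2.1 h3.1 ht
    have h5 := abs_le.1 h4
    have h6 := (sepQ_le g h1).1
    have h7 := (sepQ_le g h2).1
    have h8 := (sepQ_le g h3).1
    have h9 := g.err
    have h10 : 0 ≤ F2 p / (2 * L) * ((hs t : ℤ) : ℝ) ^ 2 := by positivity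
    linarith
  · have h4 := per_not_trans g h1.1 h2.1 h3.1 h1.2 h2.2 h3.2 ht
    have h5 : 0 ≤ F0 p * L := by positivity
    linarith

theorem val_not_trans {C : ℝ} {L : ℤ} {H : ℝ} (g : Geo p C L H)
    (π : List (Elt × Elt × Elt)) (h : ∀ e ∈ π.flatMap el, Small H e) :
    valQ p L π ≤ π.length * (24 * F0 p * L + 100 * H) ∧
      ((∃ t ∈ π, ¬ Trans t) → valQ p L π ≤ π.length * (24 * F0 p * L + 100 * H) - 4 * F0 p * L) := by
  induction π with
  | nil => simp [valQ]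
  | cons t π ih =>
    obtain ⟨i1, i2⟩ := ih (fun e he => h e (by rw [List.flatMap_cons]; exact List.mem_append_right _ he))
    have hm : ∀ e ∈ el t, Small H e := fun e he =>
      h e (by rw [List.flatMap_cons]; exact List.mem_append_left _ he)
    have h1 := per_le g hm
    unfold valQ at *
    simp only [List.map_cons, List.sum_cons, List.length_cons]
    push_cast
    refine ⟨by linarith, ?_⟩
    rintro ⟨t', ht', hn⟩
    rcases List.mem_cons.1 ht' with rfl | ht'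
    · have := per_not_trans g (hm t'.1 (by simp [el])).1
        (hm t'.2.1 (by simp [el])).1 (hm t'.2.2 (by simp [el])).1 (hm t'.1 (by simp [el])).2
        (hm t'.2.1 (by simp [el])).2 (hm t'.2.2 (by simp [el])).2 hn
      linarith
    · have := i2 ⟨t', ht', hn⟩
      linarith

/-- The assumptions on the sizes. -/
structure Big (p C : ℝ) (L : ℤ) (θ : ℝ) (H : ℝ) (n : ℕ) : Prop extends Geo p C L H where
  hn : 12 * n * EE1 p C * H ^ 3 ≤ F2 p * L
  hn2 : 200 * n * H ≤ L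
  hθ : F2 p * (θ + 2) ≤ L

theorem Big.err2 {C : ℝ} {L : ℤ} {θ : ℝ} {H : ℝ} {n : ℕ} (b : Big p C L θ H n) :
    n * (3 * EE1 p C * (H ^ 3 / (L : ℝ) ^ 2)) ≤ F2 p / (2 * L) * (1 / 2) := by
  have hL0 := b.toGeo.L0
  have h1 := b.hn
  have e1 : n * (3 * EE1 p C * (H ^ 3 / (L : ℝ) ^ 2)) = (12 * n * EE1 p C * H ^ 3) / (4 * (L : ℝ) ^ 2) := by
    field_simp; ring
  have e2 : F2 p / (2 * L) * (1 / 2) = (F2 p * L) / (4 * (L : ℝ) ^ 2) := by
    field_simp; ring
  rw [e1, e2]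
  exact div_le_div_of_nonneg_right h1 (by positivity)

/-- The sum of the separable parts. -/
noncomputable def SS (p : ℝ) (L : ℤ) (E : List Elt) : ℝ := (E.map (sepQ p L)).sum

theorem thr_up {C : ℝ} {L : ℤ} {θ : ℝ} {H : ℝ} {E : List Elt} {π : List (Elt × Elt × Elt)}
    (hb : Big p C L θ H π.length) (hE : ∀ e ∈ E, Small H e) (hp : (π.flatMap el).Perm E)
    (ht : ∀ t ∈ π, Trans t) (hQ : (QE π : ℝ) ≤ θ) :
    SS p L E - F2 p / (2 * L) * (θ + 1 / 2) ≤ valQ p L π := by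
  have hL0 := hb.toGeo.L0
  have hF2 := F2_pos hb.hp
  have h := abs_le.1 (val_trans hb.toGeo π (fun e he => hE e (hp.mem_iff.1 he)) ht)
  rw [(hp.map (sepQ p L)).sum_eq] at h
  have h1 := hb.err2
  have h2 : F2 p / (2 * L) * (QE π : ℝ) ≤ F2 p / (2 * L) * θ :=
    mul_le_mul_of_nonneg_left hQ (by positivity)
  unfold SS
  linarith

theorem thr_down {C : ℝ} {L : ℤ} {θ : ℝ} {H : ℝ} {E : List Elt} {π : List (Elt × Elt × Elt)}
    (hθ0 : 0 ≤ θ) (hb : Big p C L θ H π.length) (hE : ∀ e ∈ E, Small H e)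
    (hp : (π.flatMap el).Perm E) (h : SS p L E - F2 p / (2 * L) * (θ + 3 / 2) ≤ valQ p L π) :
    (∀ t ∈ π, Trans t) ∧ (QE π : ℝ) ≤ θ + 2 := by
  have hL0 := hb.toGeo.L0
  have hF2 := F2_pos hb.hp
  have hF0 := F0_ge hb.hp
  have hH := hb.hH
  have hL := hb.hL
  have hlen := hp.length_eq
  rw [length_flatMap_el] at hlen
  have hsep : ∀ (E : List Elt), (∀ e ∈ E, Small H e) →
      (E.length : ℝ) * (8 * F0 p * L - 20 * H) ≤ (E.map (sepQ p L)).sum := by
    intro E hE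
    induction E with
    | nil => simp
    | cons e E ih =>
      have h1 := ih fun e he => hE e (List.mem_cons_of_mem _ he)
      have h2 := (sepQ_le hb.toGeo (hE e (List.mem_cons_self ..))).2
      simp only [List.map_cons, List.sum_cons, List.length_cons]
      push_cast
      linarith
  have hs := hsep E hE
  rw [← hlen] at hs
  push_cast at hs
  unfold SS at h
  have ht : ∀ t ∈ π, Trans t := by
    by_contra hcon
    push Not at hcon
    obtain ⟨h1, h2⟩ := val_not_trans hb.toGeo π (fun e he => hE e (hp.mem_iff.1 he))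
    have h3 := h2 hcon
    have hπ : (1 : ℝ) ≤ π.length := by
      obtain ⟨t, ht, -⟩ := hcon
      have := List.length_pos_of_mem ht
      exact_mod_cast this
    have h4 := hb.hn2
    have h5 : F2 p / (2 * L) * (θ + 3 / 2) ≤ 1 := by
      rw [div_mul_eq_mul_div, div_le_one (by positivity)]
      have := hb.hθ
      nlinarith
    have h6 : (L : ℝ) ≤ F0 p * L := by nlinarith
    have h7 : (π.length : ℝ) * H ≥ 1 := by nlinarith
    nlinarith
  refine ⟨ht, ?_⟩
  have h1 := abs_le.1 (val_trans hb.toGeo π (fun e he => hE e (hp.mem_iff.1 he)) ht)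
  rw [(hp.map (sepQ p L)).sum_eq] at h1
  have h2 := hb.err2
  have h3 : F2 p / (2 * L) * (QE π : ℝ) ≤ F2 p / (2 * L) * (θ + 2) := by linarith
  exact le_of_mul_le_mul_left h3 (by positivity)

end Pool.Agent.KS6_6.MD
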