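import Pool.Agent.KS6_6.MD.Emb

/-!
# Sizes, and the reduction for nearly optimal partitions
-/

set_option autoImplicit false

namespace Pool.Agent.KS6_6.MD

open Pool.Agent.NPC Pool.Agent.NPC.H632 Pool.Agent.H557R2.Tri

variable {p : ℝ} {S : List (ℕ × ℕ × ℕ)} {q : ℕ}

theorem q_le (h : Pr S q) : q ≤ S.length := by
  have h1 : (List.range (3 * q)).Subperm (S.flatMap el) := by
    refine List.subperm_of_subset List.nodup_range fun e he => ?_
    obtain ⟨t, ht, het⟩ := h.occ e (List.mem_range.1 he)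
    exact List.mem_flatMap.2 ⟨t, ht, het⟩
  have h2 := h1.length_le
  rw [List.length_range, length_flatMap_el] at h2
  omega

theorem LL_le {m q : ℕ} (hm : 1 ≤ m) (hq : q ≤ m) : LL m q ≤ 10 ^ 18 * (m : ℤ) ^ 13 := by
  have hm' : (1 : ℤ) ≤ m := by exact_mod_cast hm
  have hq' : (q : ℤ) ≤ m := by exact_mod_cast hq
  have hq0 : (0 : ℤ) ≤ q := Int.natCast_nonneg q
  have hm0 : (0 : ℤ) ≤ m := Int.natCast_nonneg m
  have hR : RR m ≤ 16 * (m : ℤ) ^ 2 := by unfold RR; nlinarith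
  have hR0 : 0 ≤ RR m := by have := RR_pos m; linarith
  have hK : KK q ≤ 768 * (m : ℤ) := by unfold KK; linarith
  have hK0 : 0 ≤ KK q := by unfold KK; linarith
  have h1 : KK q * (m + 2) + 1 ≤ 2305 * (m : ℤ) ^ 2 := by
    have : KK q * (m + 2) ≤ 768 * m * (3 * m) := mul_le_mul hK (by linarith) (by linarith) (by linarith)
    nlinarith
  have h10 : 0 ≤ KK q * (m + 2) + 1 := by
    have := mul_nonneg hK0 (by linarith : (0 : ℤ) ≤ (m : ℤ) + 2)
    linarith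
  have hH : HH m q ≤ 36880 * (m : ℤ) ^ 4 := by
    unfold HH
    calc RR m * (KK q * (m + 2) + 1) ≤ 16 * (m : ℤ) ^ 2 * (2305 * (m : ℤ) ^ 2) :=
          mul_le_mul hR h1 h10 (by positivity)
      _ = _ := by ring
  have hH0 : 0 ≤ HH m q := by have := (HH_ge m q).2; linarith
  have hH3 : HH m q * HH m q * HH m q ≤ 36880 ^ 3 * (m : ℤ) ^ 12 := by
    calc HH m q * HH m q * HH m q = HH m q ^ 3 := by ring
      _ ≤ (36880 * (m : ℤ) ^ 4) ^ 3 := pow_le_pow_left₀ hH0 hH 3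
      _ = _ := by ring
  unfold LL
  have hH30 : 0 ≤ HH m q * HH m q * HH m q := by positivity
  calc 2400 * (3 * (m : ℤ) + 1) * (HH m q * HH m q * HH m q) ≤ 2400 * (4 * m) * (36880 ^ 3 * (m : ℤ) ^ 12) :=
        mul_le_mul (by linarith) hH3 hH30 (by positivity)
    _ = (9600 * 36880 ^ 3) * (m : ℤ) ^ 13 := by ring
    _ ≤ 10 ^ 18 * (m : ℤ) ^ 13 := mul_le_mul_of_nonneg_right (by norm_num) (by positivity)

theorem LK_le {K : ℤ} (hK : 1 ≤ K) {m q : ℕ} (hm : 1 ≤ m) (hq : q ≤ m) :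
    LK K m q ≤ K * 10 ^ 18 * (m : ℤ) ^ 13 := by
  unfold LK
  rw [mul_assoc]
  exact mul_le_mul_of_nonneg_left (LL_le hm hq) (by linarith)

theorem exists_k (B : ℝ) (r : ℕ) : ∃ k0 : ℕ, ∀ k : ℕ, k0 ≤ k → ∀ m : ℕ, 1 ≤ m →
    B * (m : ℝ) ^ r ≤ (9 * (m : ℝ)) ^ k := by
  obtain ⟨k1, hk1⟩ := pow_unbounded_of_one_lt B (by norm_num : (1 : ℝ) < 9)
  refine ⟨max k1 r, fun k hk m hm => ?_⟩
  have hm' : (1 : ℝ) ≤ m := by exact_mod_cast hm
  have h1 : k1 ≤ k := (le_max_left _ _).trans hk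
  have h2 : r ≤ k := (le_max_right _ _).trans hk
  rw [mul_pow]
  rcases le_or_gt B 0 with hB | hB
  · have : B * (m : ℝ) ^ r ≤ 0 := mul_nonpos_of_nonpos_of_nonneg hB (by positivity)
    exact this.trans (by positivity)
  · apply mul_le_mul _ (pow_le_pow_right₀ hm' h2) (by positivity) (by positivity)
    exact hk1.le.trans (pow_le_pow_right₀ (by norm_num) h1)

/-- the exponent is large enough -/
structure EOk (p : ℝ) (K : ℤ) (k : ℕ) : Prop where
  a1 : ∀ m : ℕ, 1 ≤ m → 222 * (K : ℝ) ^ 2 * 10 ^ 36 * (m : ℝ) ^ 27 ≤ F2 p * (9 * (m : ℝ)) ^ k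
  a2 : ∀ m : ℕ, 1 ≤ m → 12 * (K : ℝ) * 10 ^ 18 * (m : ℝ) ^ 13 ≤ (9 * (m : ℝ)) ^ k

theorem exists_EOk (hp : 1 < p) (K : ℤ) : ∃ k0 : ℕ, ∀ k : ℕ, k0 ≤ k → EOk p K k := by
  have hF := F2_pos hp
  obtain ⟨k1, h1⟩ := exists_k (222 * (K : ℝ) ^ 2 * 10 ^ 36 / F2 p) 27
  obtain ⟨k2, h2⟩ := exists_k (12 * (K : ℝ) * 10 ^ 18) 13
  refine ⟨max k1 k2, fun k hk => ⟨fun m hm => ?_, h2 k ((le_max_right _ _).trans hk)⟩⟩
  have := h1 k ((le_max_left _ _).trans hk) m hm
  rw [div_mul_eq_mul_div, div_le_iff₀ hF] at this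
  linarith

theorem pq_small (h : Pr S q) {n k : ℕ} {K : ℤ} (hK : 1 ≤ K) (hk : EOk p K k) :
    SmallC k (PQ n 1 K S q) := by
  intro l hl c hc
  obtain ⟨m, hm, hm'⟩ := pq_coord h one_pos hK hl hc
  refine ⟨m, hm, ?_⟩
  rw [pq_length]
  have hS : 1 ≤ S.length := List.length_pos_iff.2 h.ne
  have h1 := LK_le hK hS (q_le h)
  have h2 : (m : ℤ) ≤ 12 * K * 10 ^ 18 * (S.length : ℤ) ^ 13 := by linarith
  have h3 : (m : ℝ) ≤ 12 * (K : ℝ) * 10 ^ 18 * (S.length : ℝ) ^ 13 := by exact_mod_cast h2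
  have h4 := h3.trans (hk.a2 _ hS)
  exact_mod_cast h4

theorem near_zp {C : ℝ} {K : ℤ} (k : KOk p C K) {κ : ℕ} (hκ : EOk p K κ) (h : Pr S q) (n : ℕ)
    {π : List (Elt × Elt × Elt)} (hp : (π.flatMap el).Perm (EE S q))
    (ho : Near p (n + 2) (1 / ((PQ n 1 K S q).length : ℝ) ^ κ) (PQ n 1 K S q)
      (π.map (f3 (cq n 1 (LK K S.length q))))) : X3C (S, q) ↔ ZP S q π := by
  constructor
  · intro hx
    obtain ⟨π0, h0⟩ := h.x3c_iff.1 hx
    have h1 := of_zp k h h0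
    have h2 := ho.2 _ ((pq_part h n one_pos k.k1).2 ⟨π0, rfl, h0.1⟩)
    rw [valp_cq k.hp n zero_le_one, valp_cq k.hp n zero_le_one, Int.cast_one, one_mul, one_mul,
      pq_length] at h2
    refine zp_of k h hp ?_
    have hS : 1 ≤ S.length := List.length_pos_iff.2 h.ne
    have hS' : (1 : ℝ) ≤ S.length := by exact_mod_cast hS
    have hF := F2_pos k.hp
    have hlen := len_eq h0.1
    have hb : Big p C (LK K S.length q) (TH S.length : ℤ) (HH S.length q) π0.length := bigK k hlen.le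
    have hL0 := hb.toGeo.L0
    have hH := hb.hH
    have hL := hb.hL
    have h3 := (val_not_trans hb.toGeo π0 (fun e he => h.small (h0.1.mem_iff.1 he))).1
    have hF0 := F0_le k.hp
    have hF0' := F0_ge k.hp
    rw [hlen] at h3
    push_cast at h3
    have h1L := LK_le k.k1 hS (q_le h)
    have h2L : ((LK K S.length q : ℤ) : ℝ) ≤ K * 10 ^ 18 * (S.length : ℝ) ^ 13 := by exact_mod_cast h1L
    set L : ℝ := ((LK K S.length q : ℤ) : ℝ) with hLd
    set m : ℝ := (S.length : ℝ) with hm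
    have h4 : valQ p (LK K S.length q) π0 ≤ 111 * m * L := by
      refine h3.trans ?_
      have h5 : 24 * F0 p * L + 100 * (HH S.length q : ℝ) ≤ 37 * L := by nlinarith
      calc 3 * m * (24 * F0 p * L + 100 * (HH S.length q : ℝ)) ≤ 3 * m * (37 * L) :=
            mul_le_mul_of_nonneg_left h5 (by positivity)
        _ = 111 * m * L := by ring
    have h5 : 1 / (9 * m) ^ κ * valQ p (LK K S.length q) π0 ≤ F2 p / (2 * L) := by
      have h6 := hκ.a1 _ hS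
      rw [← hm] at h6
      have h7 : 222 * m * L ^ 2 ≤ F2 p * (9 * m) ^ κ := by
        refine le_trans ?_ h6
        have h8 : L ^ 2 ≤ (K * 10 ^ 18 * m ^ 13) ^ 2 := pow_le_pow_left₀ hL0.le h2L 2
        calc 222 * m * L ^ 2 ≤ 222 * m * (K * 10 ^ 18 * m ^ 13) ^ 2 :=
              mul_le_mul_of_nonneg_left h8 (by positivity)
          _ = _ := by ring
      have h9 : (0 : ℝ) < (9 * m) ^ κ := by positivity
      calc 1 / (9 * m) ^ κ * valQ p (LK K S.length q) π0 ≤ 1 / (9 * m) ^ κ * (111 * m * L) :=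
            mul_le_mul_of_nonneg_left h4 (by positivity)
        _ = 222 * m * L ^ 2 / ((9 * m) ^ κ * (2 * L)) := by field_simp; ring
        _ ≤ F2 p * (9 * m) ^ κ / ((9 * m) ^ κ * (2 * L)) :=
            div_le_div_of_nonneg_right h7 (by positivity)
        _ = F2 p / (2 * L) := by field_simp
    push_cast at h2
    rw [← hm] at h2
    have h10 : (1 - 1 / (9 * m) ^ κ) * valQ p (LK K S.length q) π0 =
      valQ p (LK K S.length q) π0 - 1 / (9 * m) ^ κ * valQ p (LK K S.length q) π0 := by ring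
    rw [h10] at h2
    have h11 : F2 p / (2 * L) * (((TH S.length : ℤ) : ℝ) + 3 / 2) =
      F2 p / (2 * L) * (((TH S.length : ℤ) : ℝ) + 1 / 2) + F2 p / (2 * L) := by ring
    rw [h11]
    linarith
  · intro hz
    exact h.x3c_iff.2 ⟨π, hz⟩

end Pool.Agent.KS6_6.MD
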