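import Pool.Agent.KS6_6.MD.Red

/-!
# Nearly optimal partitions decide exact cover
-/

set_option autoImplicit false

namespace Pool.Agent.KS6_6.MD

open Pool.Agent.NPC Pool.Agent.NPC.H632 Pool.Agent.H557R2.Tri

attribute [local fun_prop] Poly.iadd Poly.isub Poly.imul Poly.ineg

section
variable {α : Type} [TEnc α]

theorem poly_gX {L : α → ℤ} {e : α → Elt} (hL : Poly L) (he : Poly e) :
    Poly (fun a => gX (L a) (e a)) := by
  unfold gX
  fun_prop

theorem poly_gY {L : α → ℤ} {e : α → Elt} (hL : Poly L) (he : Poly e) :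
    Poly (fun a => gY (L a) (e a)) := by
  unfold gY
  fun_prop

theorem poly_cq (n : ℕ) {F L : α → ℤ} {e : α → Elt} (hF : Poly F) (hL : Poly L) (he : Poly e) :
    Poly (fun a => cq n (F a) (L a) (e a)) := by
  unfold cq
  exact Poly.cons (poly_rat (Poly.imul hF (poly_gX hL he)))
    (Poly.cons (poly_rat (Poly.imul hF (poly_gY hL he))) (NPC.Poly.const _))

end

theorem poly_LKI (K : ℤ) : Poly fun I : Inst => LK K I.1.length I.2 := by
  unfold LK
  exact Poly.imul (NPC.Poly.const _) poly_LI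

theorem poly_PQ (n : ℕ) {F : Inst → ℤ} (hF : Poly F) (K : ℤ) :
    Poly fun I : Inst => PQ n (F I) K I.1 I.2 := by
  unfold PQ
  exact NPC.Poly.map poly_EE (poly_cq n (hF.comp (Poly.fst Poly.id))
    ((poly_LKI K).comp (Poly.fst Poly.id)) (Poly.snd Poly.id))

/-- The codes of the points. -/
def codesQ (n : ℕ) (K : ℤ) (I : Inst) : List T := (PQ n 1 K I.1 I.2).map toT

/-- The element whose point has the given code. -/
noncomputable def decQ (n : ℕ) (K : ℤ) (I : Inst) (τ : T) : Elt :=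
  (EE I.1 I.2).getD (index (codesQ n K I) τ) (0, 0)

/-- The test of a partition. -/
noncomputable def chkQ (n : ℕ) (K : ℤ) (I : Inst) (l : List (T × T × T)) : Bool :=
  l.all fun t => trB (decQ n K I t.1, decQ n K I t.2.1, decQ n K I t.2.2) &&
    decide (ms I.1.length (decQ n K I t.1, decQ n K I t.2.1, decQ n K I t.2.2) = 0)

section
variable {α : Type} [TEnc α]

theorem poly_codesQ (n : ℕ) (K : ℤ) : Poly (codesQ n K) :=
  NPC.Poly.map (poly_PQ n (NPC.Poly.const 1) K) (Poly.toT' (Poly.snd Poly.id))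

theorem poly_decQ (n : ℕ) (K : ℤ) {I : α → Inst} {τ : α → T} (hI : Poly I) (hτ : Poly τ) :
    Poly (fun a => decQ n K (I a) (τ a)) := by
  unfold decQ
  exact Poly.getD (poly_EE.comp hI) (Poly.index ((poly_codesQ n K).comp hI) hτ) (NPC.Poly.const _)

theorem poly_chkQ (n : ℕ) (K : ℤ) {I : α → Inst} {l : α → List (T × T × T)} (hI : Poly I) (hl : Poly l) :
    Poly (fun a => chkQ n K (I a) (l a)) := by
  unfold chkQ
  have h1 : Poly fun p : α × (T × T × T) => decQ n K (I p.1) p.2.1 :=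
    poly_decQ n K (hI.comp (by fun_prop)) (by fun_prop)
  have h2 : Poly fun p : α × (T × T × T) => decQ n K (I p.1) p.2.2.1 :=
    poly_decQ n K (hI.comp (by fun_prop)) (by fun_prop)
  have h3 : Poly fun p : α × (T × T × T) => decQ n K (I p.1) p.2.2.2 :=
    poly_decQ n K (hI.comp (by fun_prop)) (by fun_prop)
  have h4 : Poly fun p : α × (T × T × T) =>
      (decQ n K (I p.1) p.2.1, decQ n K (I p.1) p.2.2.1, decQ n K (I p.1) p.2.2.2) :=
    Poly.pair h1 (Poly.pair h2 h3)
  have h5 : Poly fun p : α × (T × T × T) => (I p.1).1.length :=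
    (poly_len.comp hI).comp (Poly.fst Poly.id)
  exact Poly.all hl (Poly.and (poly_trB h4) (Poly.decide_eq (poly_ms h5 h4) (NPC.Poly.const _)))

end

variable {p : ℝ} {S : List (ℕ × ℕ × ℕ)} {q : ℕ}

theorem decQ_eq (h : Pr S q) (n : ℕ) {K : ℤ} (hK : 1 ≤ K) {e : Elt} (he : e ∈ EE S q) :
    decQ n K (S, q) (toT (cq n 1 (LK K S.length q) e)) = e := by
  have hmem : toT (cq n 1 (LK K S.length q) e) ∈ codesQ n K (S, q) := by
    unfold codesQ PQ
    exact List.mem_map_of_mem (List.mem_map_of_mem he)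
  have h1 := getElem?_index hmem
  unfold decQ
  generalize index (codesQ n K (S, q)) (toT (cq n 1 (LK K S.length q) e)) = k at *
  unfold codesQ PQ at h1
  rw [List.getElem?_map, List.getElem?_map] at h1
  simp only at h1 ⊢
  rw [List.getD_eq_getElem?_getD]
  cases h2 : (EE S q)[k]? with
  | none => rw [h2] at h1; simp at h1
  | some e' =>
    rw [h2] at h1
    simp only [Option.map_some, Option.some.injEq] at h1
    have h3 := TEnc.inj h1
    have h4 := pq_inj h one_pos hK e' (List.mem_of_getElem? h2) e he h3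
    simp [h4]

theorem chkQ_iff (h : Pr S q) (n : ℕ) {K : ℤ} (hK : 1 ≤ K) {π : List (Elt × Elt × Elt)}
    (hp : (π.flatMap el).Perm (EE S q)) :
    chkQ n K (S, q) ((π.map (f3 (cq n 1 (LK K S.length q)))).map
      fun t => (toT t.1, toT t.2.1, toT t.2.2)) = true ↔ ZP S q π := by
  have hmem : ∀ t ∈ π, ∀ e ∈ el t, e ∈ EE S q := fun t ht e he =>
    hp.mem_iff.1 (List.mem_flatMap.2 ⟨t, ht, he⟩)
  have key : ∀ t ∈ π, (decQ n K (S, q) (toT (f3 (cq n 1 (LK K S.length q)) t).1),
      decQ n K (S, q) (toT (f3 (cq n 1 (LK K S.length q)) t).2.1),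
      decQ n K (S, q) (toT (f3 (cq n 1 (LK K S.length q)) t).2.2)) = t := by
    intro t ht
    unfold f3
    simp only
    rw [decQ_eq h n hK (hmem t ht t.1 (by simp [el])), decQ_eq h n hK (hmem t ht t.2.1 (by simp [el])),
      decQ_eq h n hK (hmem t ht t.2.2 (by simp [el]))]
  unfold chkQ ZP
  rw [List.all_eq_true]
  constructor
  · intro hc
    refine ⟨hp, fun t ht => ?_⟩
    have h1 := hc _ (List.mem_map_of_mem (List.mem_map_of_mem ht))
    simp only at h1
    rw [key t ht, Bool.and_eq_true, trB_iff, decide_eq_true_eq] at h1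
    exact h1
  · rintro ⟨-, hz⟩ x hx
    obtain ⟨y, hy, rfl⟩ := List.mem_map.1 hx
    obtain ⟨t, ht, rfl⟩ := List.mem_map.1 hy
    simp only
    rw [key t ht, Bool.and_eq_true, trB_iff, decide_eq_true_eq]
    exact hz t ht

/-- There is a polynomial-time algorithm which computes, for all instances of `N` points whose
coordinates are natural numbers `≤ N ^ k`, a partition with at least `1 - N ^ (-k)` times the
maximum value. -/
def AlgNear (p : ℝ) (s k : ℕ) : Prop :=
  ∃ F : List Bool → List Bool, PolyTime F ∧ ∀ P : List (List ℚ), Valid s P → P ≠ [] → SmallC k P →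
    ∃ π, F (bits P) = bits π ∧ Near p s (1 / (P.length : ℝ) ^ k) P π

/-- **Such an algorithm would put `NP` in `P`.** -/
theorem collapseQ (hp : 1 < p) (n : ℕ) : ∃ k0 : ℕ, ∀ k : ℕ, k0 ≤ k → AlgNear p (n + 2) k →
    ∀ L, InNP L → InP L := by
  obtain ⟨C, K, hK⟩ := exists_KOk hp
  obtain ⟨k0, hk0⟩ := exists_EOk hp (K : ℤ)
  refine ⟨k0, fun k hk => ?_⟩
  have hE := hk0 k hk
  rintro ⟨F, hF, hopt⟩
  have hF' := Pool.Agent.H622R2.poly_of_polyTime hF
  let d : Inst → Bool := fun I => (unbits (List (T × T × T)) (F (bits (PQ n 1 (K : ℤ) I.1 I.2)))).elim false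
    fun l => chkQ n K I l
  have hd : Poly d := by
    refine Poly.optElim (poly_unbits.comp (hF'.comp (Pool.Agent.H557R2.Mve.poly_bits
      (poly_PQ n (NPC.Poly.const 1) (K : ℤ)))))
      (NPC.Poly.const _) ?_
    exact poly_chkQ n K (Poly.fst Poly.id) (Poly.snd Poly.id)
  refine hardPr_X3Cr.collapse hd ?_
  rintro ⟨S, q⟩ hI
  simp only at hI
  have hne : PQ n 1 (K : ℤ) S q ≠ [] := by
    intro h0
    have h1 := pq_length (S := S) (q := q) n 1 (K : ℤ)
    rw [h0, List.length_nil] at h1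
    have := List.length_pos_iff.2 hI.ne
    omega
  obtain ⟨π', h1, h2⟩ := hopt (PQ n 1 K S q) (pq_valid hI n one_pos hK.k1) hne (pq_small hI hK.k1 hE)
  obtain ⟨π, rfl, hp'⟩ := (pq_part hI n one_pos hK.k1).1 h2.1
  rw [near_zp hK hE hI n hp' h2, ← chkQ_iff hI n hK.k1 hp']
  have e : d (S, q) = chkQ n K (S, q) ((π.map (f3 (cq n 1 (LK K S.length q)))).map
      fun t => (toT t.1, toT t.2.1, toT t.2.2)) := by
    simp only [d]
    rw [h1, ← bits_codes, unbits_bits]
    rfl
  rw [e]

end Pool.Agent.KS6_6.MD
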