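import Mathlib

/-!
# The second order expansion of `(1 + s ^ p) ^ (1 / p)` at `s = 1 / 2`
-/

set_option autoImplicit false

namespace Pool.Agent.KS6_6.MD

open Set

/-- repeated mean value inequality -/
theorem mv {f f' : ℝ → ℝ} {x0 r K : ℝ} (n : ℕ) (hK : 0 ≤ K) (hd : ∀ x, |x - x0| ≤ r → HasDerivAt f (f' x) x)
    (h0 : f x0 = 0) (hb : ∀ x, |x - x0| ≤ r → |f' x| ≤ K * |x - x0| ^ n) :
    ∀ x, |x - x0| ≤ r → |f x| ≤ K * |x - x0| ^ (n + 1) := by
  intro x hx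
  have hconv : Convex ℝ (Metric.closedBall x0 |x - x0|) := convex_closedBall _ _
  have h1 := hconv.norm_image_sub_le_of_norm_hasDerivWithin_le (f := f) (f' := f') (x := x0) (y := x)
    (C := K * |x - x0| ^ n)
    (fun y hy => (hd y (by
      rw [Metric.mem_closedBall, Real.dist_eq] at hy; exact hy.trans hx)).hasDerivWithinAt)
    (fun y hy => by
      rw [Metric.mem_closedBall, Real.dist_eq] at hy
      rw [Real.norm_eq_abs]
      exact (hb y (hy.trans hx)).trans (mul_le_mul_of_nonneg_left (pow_le_pow_left₀ (abs_nonneg _) hy _) hK))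
    (Metric.mem_closedBall_self (abs_nonneg _)) (by rw [Metric.mem_closedBall, Real.dist_eq])
  rw [h0, sub_zero, Real.norm_eq_abs, Real.norm_eq_abs] at h1
  rw [pow_succ, ← mul_assoc]; exact h1

/-- cubic Taylor bound from a bound for the third derivative -/
theorem taylor3 {f g h k : ℝ → ℝ} {x0 r K : ℝ} (hK : 0 ≤ K) (hr : 0 ≤ r)
    (hf : ∀ x, |x - x0| ≤ r → HasDerivAt f (g x) x)
    (hg : ∀ x, |x - x0| ≤ r → HasDerivAt g (h x) x)
    (hh : ∀ x, |x - x0| ≤ r → HasDerivAt h (k x) x) (hk : ∀ x, |x - x0| ≤ r → |k x| ≤ K) :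
    ∀ x, |x - x0| ≤ r → |f x - (f x0 + g x0 * (x - x0) + h x0 / 2 * (x - x0) ^ 2)| ≤ K * |x - x0| ^ 3 := by
  have d1 : ∀ x, HasDerivAt (fun x => x - x0) 1 x := fun x => (hasDerivAt_id x).sub_const x0
  have s1 := mv (f := fun x => h x - h x0) (f' := k) (x0 := x0) (r := r) 0 hK
    (fun x hx => (hh x hx).sub_const _) (by simp) (fun x hx => by simpa using hk x hx)
  have s2 := mv (f := fun x => g x - g x0 - h x0 * (x - x0)) (f' := fun x => h x - h x0) (x0 := x0) (r := r) 1 hK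
    (fun x hx => by
      have := ((hg x hx).sub_const (g x0)).sub ((d1 x).const_mul (h x0))
      exact this.congr_deriv (by ring)) (by simp) (fun x hx => by simpa using s1 x hx)
  have s3 := mv (f := fun x => f x - f x0 - g x0 * (x - x0) - h x0 / 2 * (x - x0) ^ 2)
    (f' := fun x => g x - g x0 - h x0 * (x - x0)) (x0 := x0) (r := r) 2 hK
    (fun x hx => by
      have := (((hf x hx).sub_const (f x0)).sub ((d1 x).const_mul (g x0))).sub
        (((d1 x).pow 2).const_mul (h x0 / 2))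
      refine this.congr_deriv ?_
      simp; ring) (by simp) (fun x hx => by simpa using s2 x hx)
  intro x hx
  have := s3 x hx
  have e : f x - (f x0 + g x0 * (x - x0) + h x0 / 2 * (x - x0) ^ 2) =
    f x - f x0 - g x0 * (x - x0) - h x0 / 2 * (x - x0) ^ 2 := by ring
  rw [e]; exact this

section
variable (p : ℝ)

/-- `(1 + s ^ p) ^ (1 / p)` -/
noncomputable def ph (s : ℝ) : ℝ := (1 + s ^ p) ^ (1 / p)
noncomputable def ph1 (s : ℝ) : ℝ := s ^ (p - 1) * (1 + s ^ p) ^ (1 / p - 1)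
noncomputable def ph2 (s : ℝ) : ℝ := (p - 1) * (s ^ (p - 2) * (1 + s ^ p) ^ (1 / p - 2))
noncomputable def ph3 (s : ℝ) : ℝ := (p - 1) * ((p - 2) * s ^ (p - 3) * (1 + s ^ p) ^ (1 / p - 2) +
  s ^ (p - 2) * (p * s ^ (p - 1) * (1 / p - 2) * (1 + s ^ p) ^ (1 / p - 3)))

noncomputable def F0 : ℝ := ph p (1 / 2)
noncomputable def F1 : ℝ := ph1 p (1 / 2)
noncomputable def F2 : ℝ := ph2 p (1 / 2)

variable {p}

theorem base_pos {s : ℝ} (hs : 0 < s) : 0 < 1 + s ^ p := by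
  have := Real.rpow_pos_of_pos hs p
  linarith

theorem d_base {s : ℝ} (hs : 0 < s) : HasDerivAt (fun s : ℝ => 1 + s ^ p) (p * s ^ (p - 1)) s := by
  have := (Real.hasDerivAt_rpow_const (p := p) (Or.inl hs.ne')).const_add 1
  exact this

theorem d_basepow {s : ℝ} (hs : 0 < s) (q : ℝ) :
    HasDerivAt (fun s : ℝ => (1 + s ^ p) ^ q) (p * s ^ (p - 1) * q * (1 + s ^ p) ^ (q - 1)) s :=
  (d_base hs).rpow_const (Or.inl (base_pos hs).ne')

theorem d_ph (hp : 1 < p) {s : ℝ} (hs : 0 < s) : HasDerivAt (ph p) (ph1 p s) s := by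
  have h := d_basepow (p := p) hs (1 / p)
  refine h.congr_deriv ?_
  unfold ph1
  have : p ≠ 0 := by linarith
  field_simp

theorem d_ph1 (hp : 1 < p) {s : ℝ} (hs : 0 < s) : HasDerivAt (ph1 p) (ph2 p s) s := by
  have h := (Real.hasDerivAt_rpow_const (p := p - 1) (Or.inl hs.ne')).mul (d_basepow (p := p) hs (1 / p - 1))
  refine h.congr_deriv ?_
  unfold ph2
  have hp0 : p ≠ 0 := by linarith
  have hb := base_pos (p := p) hs
  have e1 : s ^ (p - 1 - 1) = s ^ (p - 2) := by congr 1; ring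
  have e2 : (1 + s ^ p) ^ (1 / p - 1) = (1 + s ^ p) ^ (1 / p - 2) * (1 + s ^ p) := by
    rw [← Real.rpow_add_one hb.ne']; congr 1; ring
  have e3 : (1 + s ^ p) ^ (1 / p - 1 - 1) = (1 + s ^ p) ^ (1 / p - 2) := by congr 1; ring
  have e4 : s ^ (p - 1) * s ^ (p - 1) = s ^ (p - 2) * s ^ p := by
    rw [← Real.rpow_add hs, ← Real.rpow_add hs]; congr 1; ring
  rw [e1, e2, e3]
  calc (p - 1) * s ^ (p - 2) * ((1 + s ^ p) ^ (1 / p - 2) * (1 + s ^ p)) +
        s ^ (p - 1) * (p * s ^ (p - 1) * (1 / p - 1) * (1 + s ^ p) ^ (1 / p - 2))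
      = (p - 1) * s ^ (p - 2) * (1 + s ^ p) ^ (1 / p - 2) * (1 + s ^ p) +
        (s ^ (p - 1) * s ^ (p - 1)) * (p * (1 / p - 1)) * (1 + s ^ p) ^ (1 / p - 2) := by ring
    _ = (p - 1) * s ^ (p - 2) * (1 + s ^ p) ^ (1 / p - 2) * (1 + s ^ p) +
        (s ^ (p - 2) * s ^ p) * (1 - p) * (1 + s ^ p) ^ (1 / p - 2) := by
      rw [e4]; congr 3; field_simp
    _ = _ := by ring

theorem d_ph2 {s : ℝ} (hs : 0 < s) : HasDerivAt (ph2 p) (ph3 p s) s := by
  have h := ((Real.hasDerivAt_rpow_const (p := p - 2) (Or.inl hs.ne')).mul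
    (d_basepow (p := p) hs (1 / p - 2))).const_mul (p - 1)
  refine h.congr_deriv ?_
  unfold ph3
  have e1 : s ^ (p - 2 - 1) = s ^ (p - 3) := by congr 1; ring
  have e3 : (1 + s ^ p) ^ (1 / p - 2 - 1) = (1 + s ^ p) ^ (1 / p - 3) := by congr 1; ring
  rw [e1, e3]

theorem ph3_cont : ContinuousOn (ph3 p) (Icc (1 / 4) (3 / 4)) := by
  have hs : ∀ s ∈ Icc (1 / 4 : ℝ) (3 / 4), s ≠ 0 := fun s hs => by
    have := hs.1; intro h; rw [h] at this; norm_num at this
  have hr : ∀ q : ℝ, ContinuousOn (fun s : ℝ => s ^ q) (Icc (1 / 4) (3 / 4)) := fun q =>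
    continuousOn_id.rpow_const fun s h => Or.inl (hs s h)
  have hb : ∀ q : ℝ, ContinuousOn (fun s : ℝ => (1 + s ^ p) ^ q) (Icc (1 / 4) (3 / 4)) := fun q =>
    (continuousOn_const.add (hr p)).rpow_const fun s h => Or.inl (base_pos (by have := h.1; linarith)).ne'
  unfold ph3
  exact continuousOn_const.mul (((continuousOn_const.mul (hr _)).mul (hb _)).add
    ((hr _).mul (((continuousOn_const.mul (hr _)).mul continuousOn_const).mul (hb _))))

/-- **Taylor expansion** -/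
theorem ph_taylor (hp : 1 < p) : ∃ C : ℝ, 0 ≤ C ∧ ∀ s : ℝ, |s - 1 / 2| ≤ 1 / 4 →
    |ph p s - (F0 p + F1 p * (s - 1 / 2) + F2 p / 2 * (s - 1 / 2) ^ 2)| ≤ C * |s - 1 / 2| ^ 3 := by
  obtain ⟨C, hC⟩ := isCompact_Icc.exists_bound_of_continuousOn (ph3_cont (p := p))
  have hpos : ∀ x : ℝ, |x - 1 / 2| ≤ 1 / 4 → 0 < x ∧ x ∈ Icc (1 / 4 : ℝ) (3 / 4) := by
    intro x hx
    have := abs_le.1 hx
    exact ⟨by linarith, by constructor <;> linarith⟩
  have hC0 : 0 ≤ C := (norm_nonneg _).trans (hC (1 / 2) (by constructor <;> norm_num))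
  refine ⟨C, hC0, ?_⟩
  exact taylor3 hC0 (by norm_num) (fun x hx => d_ph hp (hpos x hx).1) (fun x hx => d_ph1 hp (hpos x hx).1)
    (fun x hx => d_ph2 (hpos x hx).1) (fun x hx => by simpa using hC x (hpos x hx).2)

theorem F2_pos (hp : 1 < p) : 0 < F2 p := by
  unfold F2 ph2
  have h1 : (0 : ℝ) < (1 / 2 : ℝ) ^ (p - 2) := by positivity
  have h2 : (0 : ℝ) < (1 + (1 / 2 : ℝ) ^ p) ^ (1 / p - 2) := Real.rpow_pos_of_pos (base_pos (by norm_num)) _
  have h3 : 0 < p - 1 := by linarith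
  positivity

theorem F0_ge (hp : 1 < p) : 1 ≤ F0 p := by
  unfold F0 ph
  apply Real.one_le_rpow
  · have : (0 : ℝ) < (1 / 2 : ℝ) ^ p := by positivity
    linarith
  · have : 0 < p := by linarith
    positivity

theorem F0_le (hp : 1 < p) : F0 p ≤ 3 / 2 := by
  unfold F0 ph
  have hp0 : 0 < p := by linarith
  have h := Real.add_rpow_le_rpow_add (a := 1) (b := 1 / 2) (by norm_num) (by norm_num) hp.le
  rw [Real.one_rpow] at h
  calc (1 + (1 / 2 : ℝ) ^ p) ^ (1 / p) ≤ ((1 + 1 / 2 : ℝ) ^ p) ^ (1 / p) := by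
        apply Real.rpow_le_rpow (base_pos (by norm_num)).le h (by positivity)
    _ = 3 / 2 := by
        rw [← Real.rpow_mul (by norm_num), mul_one_div_cancel hp0.ne', Real.rpow_one]; norm_num

theorem F1_pos : 0 < F1 p := by
  unfold F1 ph1
  have h1 : (0 : ℝ) < (1 / 2 : ℝ) ^ (p - 1) := by positivity
  have h2 : (0 : ℝ) < (1 + (1 / 2 : ℝ) ^ p) ^ (1 / p - 1) := Real.rpow_pos_of_pos (base_pos (by norm_num)) _
  positivity

theorem F1_le (hp : 1 < p) : F1 p ≤ 1 := by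
  unfold F1 ph1
  have hp0 : 0 < p := by linarith
  have h1 : (1 / 2 : ℝ) ^ (p - 1) ≤ 1 := Real.rpow_le_one (by norm_num) (by norm_num) (by linarith)
  have h2 : (1 + (1 / 2 : ℝ) ^ p) ^ (1 / p - 1) ≤ 1 := by
    apply Real.rpow_le_one_of_one_le_of_nonpos
    · have : (0 : ℝ) < (1 / 2 : ℝ) ^ p := by positivity
      linarith
    · have : 1 / p < 1 := by rw [div_lt_one hp0]; exact hp
      linarith
  have h3 : (0 : ℝ) < (1 + (1 / 2 : ℝ) ^ p) ^ (1 / p - 1) := Real.rpow_pos_of_pos (base_pos (by norm_num)) _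
  nlinarith

end

end Pool.Agent.KS6_6.MD
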